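import Pool.Agent.N929.EX.Stm

/-!
# The smoothing inequality for the walks with many free and occupied slots
-/

set_option autoImplicit false
set_option linter.unusedVariables false

namespace Pool.Agent.N929.EX

open Pool.Agent.H976R2 Pool.Agent.H976R2.Dir Finset
open scoped Classical

noncomputable section

/-- two occupied slots per four steps -/
theorem slots_len {L : Finset (ℤ × ℤ)} (hL : CF L) {n : ℕ} {T : ℕ × ℕ} (h1 : T.1 ≤ T.2)
    (h2 : T.2 ≤ n) {w : List Dir} (hw : w ∈ SW n) (s : Fin 3) :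
    2 * (OO L s T w).card ≤ gl n T s := by
  obtain ⟨hlen, hsaw⟩ := mem_SW.mp hw
  have hk : ∀ p : ℤ × ℤ, ∃ k : ℕ, p ∈ OO L s T w → At w p k 3 ∧ In s T k 3 := by
    intro p
    by_cases hp : p ∈ OO L s T w
    · unfold OO at hp
      obtain ⟨k, hk⟩ := (mem_filter.mp hp).2
      exact ⟨k, fun _ => hk⟩
    · exact ⟨0, fun h => absurd h hp⟩
  choose k hk using hk
  -- the times
  have hA : (OO L s T w ×ˢ range 2).card ≤ gl n T s := by
    rcases s with ⟨s, hs⟩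
    have hinj : ∀ x ∈ (OO L ⟨s, hs⟩ T w ×ˢ range 2), ∀ x' ∈ (OO L ⟨s, hs⟩ T w ×ˢ range 2),
        k x.1 + x.2 = k x'.1 + x'.2 → x = x' := by
      rintro ⟨p, b⟩ hp ⟨p', b'⟩ hp' h
      simp only [mem_product, mem_range] at hp hp' h
      obtain ⟨a1, a2⟩ := (hk p hp.1).1
      obtain ⟨a3, a4⟩ := (hk p' hp'.1).1
      have c1 : Cn p (Lip.PP w (k p + b)) := (a2 _ (by omega)).mpr ⟨by omega, by omega⟩
      have c2 : Cn p' (Lip.PP w (k p + b)) := (a4 _ (by omega)).mpr ⟨by omega, by omega⟩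
      have hpL : p ∈ L := (mem_filter.mp hp.1).1
      have hpL' : p' ∈ L := (mem_filter.mp hp'.1).1
      have hpp : p = p' := by
        by_contra hne
        exact hL p hpL p' hpL' hne _ ⟨c1, c2⟩
      subst hpp
      have : b = b' := by omega
      rw [this]
    interval_cases s
    · have e : gl n T ⟨0, hs⟩ = (range T.1).card := by simp [gl]
      rw [e]
      refine card_le_card_of_injOn (fun x => k x.1 + x.2) ?_ (fun x hx x' hx' h => hinj x hx x' hx' h)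
      rintro ⟨p, b⟩ hp
      simp only [coe_product, Set.mem_prod, mem_coe, mem_range] at hp
      have hi := (hk p hp.1).2
      simp only [In] at hi
      simp only [coe_range, Set.mem_Iio]
      rcases hi with hi | hi | hi
      · omega
      · exact absurd (congrArg Fin.val hi.1) (by simp)
      · exact absurd (congrArg Fin.val hi.1) (by simp)
    · have e : gl n T ⟨1, hs⟩ = (Ico T.1 T.2).card := by simp [gl]
      rw [e]
      refine card_le_card_of_injOn (fun x => k x.1 + x.2) ?_ (fun x hx x' hx' h => hinj x hx x' hx' h)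
      rintro ⟨p, b⟩ hp
      simp only [coe_product, Set.mem_prod, mem_coe, mem_range] at hp
      have hi := (hk p hp.1).2
      simp only [In] at hi
      simp only [coe_Ico, Set.mem_Ico]
      rcases hi with hi | hi | hi
      · exact absurd (congrArg Fin.val hi.1) (by simp)
      · omega
      · exact absurd (congrArg Fin.val hi.1) (by simp)
    · have e : gl n T ⟨2, hs⟩ = (Ioc T.2 n).card := by simp [gl]
      rw [e]
      refine card_le_card_of_injOn (fun x => k x.1 + x.2) ?_ (fun x hx x' hx' h => hinj x hx x' hx' h)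
      rintro ⟨p, b⟩ hp
      simp only [coe_product, Set.mem_prod, mem_coe, mem_range] at hp
      have hi := (hk p hp.1).2
      have ha := (hk p hp.1).1.1
      simp only [In] at hi
      simp only [coe_Ioc, Set.mem_Ioc]
      rcases hi with hi | hi | hi
      · exact absurd (congrArg Fin.val hi.1) (by simp)
      · exact absurd (congrArg Fin.val hi.1) (by simp)
      · omega
  rw [card_product, card_range] at hA
  omega

/-- the walk has many free and many occupied slots in the three parts -/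
def Gd (L : Finset (ℤ × ℤ)) (T : ℕ × ℕ) (s s' r : Fin 3) (a b : ℕ) (w : List Dir) : Prop :=
  4 * a ^ 2 ≤ (OO L s T w).card ∧ (OO L s T w).card + 4 * a ^ 2 ≤ (DD L s T w).card ∧
  4 * b ^ 2 ≤ (OO L s' T w).card ∧ (OO L s' T w).card + 4 * b ^ 2 ≤ (DD L s' T w).card ∧
  4 * a ^ 2 + 4 * b ^ 2 + a ≤ (OO L r T w).card ∧
  (OO L r T w).card + (4 * a ^ 2 + 4 * b ^ 2 + a) ≤ (DD L r T w).card

/-- the words with the shifted times -/
def XX (n : ℕ) (T : ℕ × ℕ) (s s' r : Fin 3) (a b : ℕ) (Z : Set ((ℤ × ℤ) × (ℤ × ℤ))) (i i' : ℕ) :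
    Finset (List Dir) :=
  (SW n).filter (fun w =>
    (Lip.PP w ((T.1 : ℤ) + 2 * dl s s' r ((i : ℤ) - a) ((i' : ℤ) - b) 0).toNat,
     Lip.PP w ((T.2 : ℤ) + 2 * dl s s' r ((i : ℤ) - a) ((i' : ℤ) - b) 0 +
       2 * dl s s' r ((i : ℤ) - a) ((i' : ℤ) - b) 1).toNat) ∈ Z)

theorem dl_sum (s s' r : Fin 3) (h1 : s ≠ s') (h2 : s ≠ r) (h3 : s' ≠ r) (a b : ℤ) :
    dl s s' r a b 0 + dl s s' r a b 1 + dl s s' r a b 2 = 0 := by
  fin_cases s <;> fin_cases s' <;> fin_cases r <;> simp [dl] at * <;> ring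

theorem mi (hc : S_CLS) (hb : S_BIN) {L : Finset (ℤ × ℤ)} (hL : CF L) {n : ℕ} {T : ℕ × ℕ}
    (h1 : T.1 ≤ T.2) (h2 : T.2 ≤ n) {s s' r : Fin 3} (hs1 : s ≠ s') (hs2 : s ≠ r) (hs3 : s' ≠ r)
    (a b : ℕ) (Z : Set ((ℤ × ℤ) × (ℤ × ℤ))) :
    ((a : ℝ) + 1) * ((b : ℝ) + 1) *
      (((SW n).filter (fun w => (Lip.PP w T.1, Lip.PP w T.2) ∈ Z ∧ Gd L T s s' r a b w)).card : ℝ) ≤
      ∑ i ∈ range (2 * a + 1), ∑ i' ∈ range (2 * b + 1), ((XX n T s s' r a b Z i i').card : ℝ) := by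
  obtain ⟨G, hG⟩ : ∃ G, G = (SW n).filter
    (fun w => (Lip.PP w T.1, Lip.PP w T.2) ∈ Z ∧ Gd L T s s' r a b w) := ⟨_, rfl⟩
  rw [← hG]
  -- the class of a word
  obtain ⟨κ, hκ⟩ : ∃ κ : List Dir → (ℤ × ℤ) × (ℤ × ℤ) × (Fin 3 → Finset (ℤ × ℤ)) × (Fin 3 → ℕ),
    ∀ w, κ w = (Lip.PP w T.1, Lip.PP w T.2, (fun t => DD L t T w), fun t => (OO L t T w).card) :=
    ⟨_, fun _ => rfl⟩
  obtain ⟨cc, hcc⟩ : ∃ cc : (Fin 3 → ℕ) → Fin 3 → ℕ, ∀ j t, cc j t = gl n T t - 2 * j t :=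
    ⟨_, fun _ _ => rfl⟩
  obtain ⟨jj, hjj⟩ : ∃ jj : (Fin 3 → ℕ) → ℕ → ℕ → Fin 3 → ℕ, ∀ j i i' t,
    jj j i i' t = ((j t : ℤ) + dl s s' r ((i : ℤ) - a) ((i' : ℤ) - b) t).toNat :=
    ⟨_, fun _ _ _ _ => rfl⟩
  obtain ⟨Hc, hHc⟩ : ∃ Hc : (ℤ × ℤ) × (ℤ × ℤ) × (Fin 3 → Finset (ℤ × ℤ)) × (Fin 3 → ℕ) →
    (Fin 3 → ℕ) → Finset (List Dir),
    ∀ x j, Hc x j = HH L x.1 x.2.1 x.2.2.1 (cc x.2.2.2) j := ⟨_, fun _ _ => rfl⟩
  obtain ⟨K, hK⟩ : ∃ K, K = G.image κ := ⟨_, rfl⟩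
  -- facts about the classes
  have hcls : ∀ x ∈ K, (x.1, x.2.1) ∈ Z ∧ (∀ t, 2 * x.2.2.2 t ≤ gl n T t) ∧
      4 * a ^ 2 ≤ x.2.2.2 s ∧ x.2.2.2 s + 4 * a ^ 2 ≤ (x.2.2.1 s).card ∧
      4 * b ^ 2 ≤ x.2.2.2 s' ∧ x.2.2.2 s' + 4 * b ^ 2 ≤ (x.2.2.1 s').card ∧
      4 * a ^ 2 + 4 * b ^ 2 + a ≤ x.2.2.2 r ∧
      x.2.2.2 r + (4 * a ^ 2 + 4 * b ^ 2 + a) ≤ (x.2.2.1 r).card := by
    intro x hx
    rw [hK, mem_image] at hx
    obtain ⟨w, hw, rfl⟩ := hx
    rw [hG, mem_filter] at hw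
    obtain ⟨hw, hz, hg⟩ := hw
    rw [hκ]
    exact ⟨hz, fun t => slots_len hL h1 h2 hw t, hg⟩
  -- (1) the walks of a class
  have hG1 : (G.card : ℝ) ≤ ∑ x ∈ K, ((Hc x x.2.2.2).card : ℝ) := by
    rw [card_eq_sum_card_image κ G, ← hK]
    push_cast
    refine sum_le_sum (fun x hx => ?_)
    have : (G.filter (fun w => κ w = x)).card ≤ (Hc x x.2.2.2).card := by
      refine card_le_card (fun w hw => ?_)
      rw [mem_filter, hG, mem_filter] at hw
      obtain ⟨⟨hw, hz, hg⟩, rfl⟩ := hw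
      obtain ⟨-, hj, -⟩ := hcls _ hx
      rw [hHc, HH, mem_filter, hκ]
      simp only
      have hj0 := hj 0
      have hj1 := hj 1
      have hj2 := hj 2
      rw [hκ] at hj0 hj1 hj2
      simp only [gl] at hj0 hj1 hj2
      simp at hj0 hj1 hj2
      have e1 : TT (cc fun t => (OO L t T w).card) (fun t => (OO L t T w).card) = T := by
        unfold TT
        rw [hcc, hcc]
        simp only [gl]
        simp
        ext
        · simp only; omega
        · simp only; omega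
      have e2 : len (cc fun t => (OO L t T w).card) (fun t => (OO L t T w).card) = n := by
        unfold len
        rw [hcc, hcc, hcc]
        simp only [gl]
        simp
        omega
      rw [e1, e2]
      exact ⟨hw, rfl, rfl, fun _ => rfl, fun _ => rfl⟩
    exact_mod_cast this
  -- nonnegativity of the shifted numbers
  have hpos : ∀ x ∈ K, ∀ i ∈ range (2 * a + 1), ∀ i' ∈ range (2 * b + 1), ∀ t,
      0 ≤ (x.2.2.2 t : ℤ) + dl s s' r ((i : ℤ) - a) ((i' : ℤ) - b) t := by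
    intro x hx i hi i' hi' t
    rw [mem_range] at hi hi'
    obtain ⟨-, -, g1, g2, g3, g4, g5, g6⟩ := hcls x hx
    have ha : (a : ℤ) ≤ 4 * a ^ 2 := by
      rcases Nat.eq_zero_or_pos a with h | h
      · simp [h]
      · have : (1 : ℤ) ≤ a := by exact_mod_cast h
        nlinarith
    have hb' : (b : ℤ) ≤ 4 * b ^ 2 := by
      rcases Nat.eq_zero_or_pos b with h | h
      · simp [h]
      · have : (1 : ℤ) ≤ b := by exact_mod_cast h
        nlinarith
    have k1 : (4 * a ^ 2 : ℤ) ≤ x.2.2.2 s := by exact_mod_cast g1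
    have k3 : (4 * b ^ 2 : ℤ) ≤ x.2.2.2 s' := by exact_mod_cast g3
    have k5 : (4 * a ^ 2 + 4 * b ^ 2 + a : ℤ) ≤ x.2.2.2 r := by exact_mod_cast g5
    have sq1 : (0 : ℤ) ≤ 4 * a ^ 2 := by positivity
    have sq2 : (0 : ℤ) ≤ 4 * b ^ 2 := by positivity
    unfold dl
    by_cases e1 : t = s
    · subst e1
      rw [if_pos rfl, if_neg hs1, if_neg hs2]
      omega
    · by_cases e2 : t = s'
      · subst e2
        rw [if_neg e1, if_pos rfl, if_neg hs3]
        omega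
      · rw [if_neg e1, if_neg e2]
        split_ifs with e3
        · subst e3; omega
        · omega
  -- (2) one class
  have h2c : ∀ x ∈ K, ((a : ℝ) + 1) * ((b : ℝ) + 1) * ((Hc x x.2.2.2).card : ℝ) ≤
      ∑ i ∈ range (2 * a + 1), ∑ i' ∈ range (2 * b + 1),
        ((Hc x (jj x.2.2.2 i i')).card : ℝ) := by
    intro x hx
    obtain ⟨-, -, g1, g2, g3, g4, g5, g6⟩ := hcls x hx
    have hbin := hb s s' r hs1 hs2 hs3 (fun t => (x.2.2.1 t).card) x.2.2.2 a b g1 g2 g3 g4 g5 g6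
    obtain ⟨N0, hN0⟩ : ∃ N0 : ℝ, N0 = ((Hc x (fun _ => 0)).card : ℝ) := ⟨_, rfl⟩
    have hN0p : 0 ≤ N0 := by rw [hN0]; positivity
    have e : ∀ j, ((Hc x j).card : ℝ) = (∏ t : Fin 3, (((x.2.2.1 t).card.choose (j t) : ℕ) : ℝ)) * N0 := by
      intro j
      rw [hN0, hHc, hHc, hc L hL x.1 x.2.1 x.2.2.1 (cc x.2.2.2) j]
      push_cast
      rfl
    rw [e]
    have e0 : ∏ t : Fin 3, (((x.2.2.1 t).card.choose (x.2.2.2 t) : ℕ) : ℝ) =
        ∏ t : Fin 3, ch ((x.2.2.1 t).card) (x.2.2.2 t) := by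
      refine Finset.prod_congr rfl (fun t _ => ?_)
      unfold ch
      rw [Int.toNat_natCast]
    have e3 : ∀ i i', ((Hc x (jj x.2.2.2 i i')).card : ℝ) =
        (∏ t : Fin 3, ch ((x.2.2.1 t).card)
          ((x.2.2.2 t : ℤ) + dl s s' r ((i : ℤ) - a) ((i' : ℤ) - b) t)) * N0 := by
      intro i i'
      rw [e]
      congr 1
      refine Finset.prod_congr rfl (fun t _ => ?_)
      unfold ch
      rw [hjj]
    rw [e0]
    calc ((a : ℝ) + 1) * ((b : ℝ) + 1) * ((∏ t : Fin 3, ch ((x.2.2.1 t).card) (x.2.2.2 t)) * N0)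
        = (((a : ℝ) + 1) * ((b : ℝ) + 1) * ∏ t : Fin 3, ch ((x.2.2.1 t).card) (x.2.2.2 t)) * N0 := by
          ring
      _ ≤ (∑ i ∈ range (2 * a + 1), ∑ i' ∈ range (2 * b + 1),
          ∏ t : Fin 3, ch ((x.2.2.1 t).card)
            ((x.2.2.2 t : ℤ) + dl s s' r ((i : ℤ) - a) ((i' : ℤ) - b) t)) * N0 := by
          exact mul_le_mul_of_nonneg_right hbin hN0p
      _ = _ := by
          rw [Finset.sum_mul]
          refine Finset.sum_congr rfl (fun i _ => ?_)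
          rw [Finset.sum_mul]
          refine Finset.sum_congr rfl (fun i' _ => ?_)
          rw [e3]
  -- (3) the shifted classes are disjoint
  have h3c : ∀ i ∈ range (2 * a + 1), ∀ i' ∈ range (2 * b + 1),
      ∑ x ∈ K, ((Hc x (jj x.2.2.2 i i')).card : ℝ) ≤ ((XX n T s s' r a b Z i i').card : ℝ) := by
    intro i hi i' hi'
    obtain ⟨δ, hδ⟩ : ∃ δ : Fin 3 → ℤ, δ = dl s s' r ((i : ℤ) - a) ((i' : ℤ) - b) := ⟨_, rfl⟩
    have hδs := dl_sum s s' r hs1 hs2 hs3 ((i : ℤ) - a) ((i' : ℤ) - b)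
    rw [← hδ] at hδs
    have hTT : ∀ x ∈ K, TT (cc x.2.2.2) (jj x.2.2.2 i i') =
        (((T.1 : ℤ) + 2 * δ 0).toNat, ((T.2 : ℤ) + 2 * δ 0 + 2 * δ 1).toNat) ∧
        len (cc x.2.2.2) (jj x.2.2.2 i i') = n := by
      intro x hx
      obtain ⟨-, hj, -⟩ := hcls x hx
      have p0 := hpos x hx i hi i' hi' 0
      have p1 := hpos x hx i hi i' hi' 1
      have p2 := hpos x hx i hi i' hi' 2
      rw [← hδ] at p0 p1 p2
      have hj0 := hj 0
      have hj1 := hj 1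
      have hj2 := hj 2
      have q0 : ((jj x.2.2.2 i i' 0 : ℕ) : ℤ) = (x.2.2.2 0 : ℤ) + δ 0 := by
        rw [hjj, ← hδ, Int.toNat_of_nonneg p0]
      have q1 : ((jj x.2.2.2 i i' 1 : ℕ) : ℤ) = (x.2.2.2 1 : ℤ) + δ 1 := by
        rw [hjj, ← hδ, Int.toNat_of_nonneg p1]
      have q2 : ((jj x.2.2.2 i i' 2 : ℕ) : ℤ) = (x.2.2.2 2 : ℤ) + δ 2 := by
        rw [hjj, ← hδ, Int.toNat_of_nonneg p2]
      have r0 := hcc x.2.2.2 0
      have r1 := hcc x.2.2.2 1
      have r2 := hcc x.2.2.2 2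
      simp only [gl] at hj0 hj1 hj2 r0 r1 r2
      simp at hj0 hj1 hj2 r0 r1 r2
      unfold TT len
      constructor
      · ext
        · simp only; omega
        · simp only; omega
      · omega
    have hdisj : ∀ x ∈ K, ∀ x' ∈ K, x ≠ x' →
        Disjoint (Hc x (jj x.2.2.2 i i')) (Hc x' (jj x'.2.2.2 i i')) := by
      intro x hx x' hx' hne
      rw [Finset.disjoint_left]
      intro w hw hw'
      apply hne
      rw [hHc, HH, mem_filter, (hTT x hx).1, (hTT x hx).2] at hw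
      rw [hHc, HH, mem_filter, (hTT x' hx').1, (hTT x' hx').2] at hw'
      obtain ⟨-, a1, a2, a3, a4⟩ := hw
      obtain ⟨-, b1, b2, b3, b4⟩ := hw'
      have e4 : x.2.2.2 = x'.2.2.2 := by
        funext t
        have c1 := (a4 t).symm.trans (b4 t)
        rw [hjj, hjj] at c1
        have p0 := hpos x hx i hi i' hi' t
        have p1 := hpos x' hx' i hi i' hi' t
        have c2 : (((x.2.2.2 t : ℤ) + dl s s' r ((i : ℤ) - a) ((i' : ℤ) - b) t).toNat : ℤ) =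
            (((x'.2.2.2 t : ℤ) + dl s s' r ((i : ℤ) - a) ((i' : ℤ) - b) t).toNat : ℤ) := by
          rw [c1]
        rw [Int.toNat_of_nonneg p0, Int.toNat_of_nonneg p1] at c2
        have c3 : (x.2.2.2 t : ℤ) = x'.2.2.2 t := by linarith
        exact_mod_cast c3
      have e3 : x.2.2.1 = x'.2.2.1 := by
        funext t
        exact (a3 t).symm.trans (b3 t)
      exact Prod.ext (a1.symm.trans b1) (Prod.ext (a2.symm.trans b2) (Prod.ext e3 e4))
    have hun : (K.biUnion (fun x => Hc x (jj x.2.2.2 i i'))).card =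
        ∑ x ∈ K, (Hc x (jj x.2.2.2 i i')).card := card_biUnion hdisj
    have hsub : K.biUnion (fun x => Hc x (jj x.2.2.2 i i')) ⊆ XX n T s s' r a b Z i i' := by
      intro w hw
      rw [mem_biUnion] at hw
      obtain ⟨x, hx, hw⟩ := hw
      rw [hHc, HH, mem_filter, (hTT x hx).1, (hTT x hx).2] at hw
      obtain ⟨a0, a1, a2, -, -⟩ := hw
      rw [XX, mem_filter, ← hδ]
      refine ⟨a0, ?_⟩
      simp only at a1 a2
      rw [a1, a2]
      exact (hcls x hx).1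
    have := card_le_card hsub
    rw [hun] at this
    exact_mod_cast this
  -- assembly
  calc ((a : ℝ) + 1) * ((b : ℝ) + 1) * (G.card : ℝ)
      ≤ ((a : ℝ) + 1) * ((b : ℝ) + 1) * ∑ x ∈ K, ((Hc x x.2.2.2).card : ℝ) := by gcongr
    _ = ∑ x ∈ K, ((a : ℝ) + 1) * ((b : ℝ) + 1) * ((Hc x x.2.2.2).card : ℝ) := by
        rw [Finset.mul_sum]
    _ ≤ ∑ x ∈ K, ∑ i ∈ range (2 * a + 1), ∑ i' ∈ range (2 * b + 1),
        ((Hc x (jj x.2.2.2 i i')).card : ℝ) := sum_le_sum h2c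
    _ = ∑ i ∈ range (2 * a + 1), ∑ i' ∈ range (2 * b + 1),
        ∑ x ∈ K, ((Hc x (jj x.2.2.2 i i')).card : ℝ) := by
        rw [Finset.sum_comm]
        refine Finset.sum_congr rfl (fun i _ => ?_)
        rw [Finset.sum_comm]
    _ ≤ _ := sum_le_sum (fun i hi => sum_le_sum (fun i' hi' => h3c i hi i' hi'))

end

end Pool.Agent.N929.EX
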