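import Pool.Agent.N929.EX.Cor

/-! Consequences of the smoothing inequality: one time, two times, increments. -/

set_option autoImplicit false
set_option linter.unusedVariables false

namespace Pool.Agent.N929.EX

open Pool.Agent.H976R2 Pool.Agent.H976R2.Dir Finset
open scoped Classical

theorem two_le_of_sq {a : ℕ} {g : ℝ} {m : ℕ} (h : 64 * (a : ℝ) ^ 2 ≤ g) (h' : g ≤ m) :
    8 * a ≤ m := by
  have h1 : 64 * a ^ 2 ≤ m := by exact_mod_cast h.trans h'
  have h2 : a ≤ a ^ 2 := Nat.le_self_pow (by norm_num) a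
  omega

theorem card_le_of (n : ℕ) {ι : Type*} (I : Finset ι) (E : ι → List Dir → Prop)
    (h : ∀ w ∈ SW n, ∀ p ∈ I, ∀ p' ∈ I, E p w → E p' w → p = p') :
    ∑ i ∈ I, (((SW n).filter (E i)).card : ℝ) ≤ 1 * ((SW n).card : ℝ) := by
  rw [sum_card_filter, one_mul]
  calc ∑ w ∈ SW n, ((I.filter (fun i => E i w)).card : ℝ) ≤ ∑ w ∈ SW n, (1 : ℝ) := by
        refine sum_le_sum (fun w hw => ?_)
        have : (I.filter (fun i => E i w)).card ≤ 1 := by
          rw [Finset.card_le_one]
          intro p hp p' hp'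
          rw [mem_filter] at hp hp'
          exact h w hw p hp.1 p' hp'.1 hp.2 hp'.2
        exact_mod_cast this
    _ = _ := by rw [Finset.sum_const, nsmul_eq_mul, mul_one]

theorem card_congr' (n : ℕ) (P Q : List Dir → Prop) [DecidablePred P] [DecidablePred Q]
    (h : ∀ w, P w ↔ Q w) :
    (((SW n).filter P).card : ℝ) = (((SW n).filter Q).card : ℝ) := by
  have : (SW n).filter P = (SW n).filter Q := by
    ext w
    simp [h]
  rw [this]

theorem toNat_inj {a b : ℤ} (ha : 0 ≤ a) (hb : 0 ≤ b) (h : a.toNat = b.toNat) : a = b := by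
  omega

/-- two times -/
theorem pair2 (hmain : S_MAIN) : ∃ A C : ℝ, 0 < A ∧ 0 < C ∧ ∀ (n i j : ℕ), 2 ≤ n → i < j →
    j < n → A * Real.log n ^ 2 ≤ i → A * Real.log n ^ 2 ≤ (j : ℝ) - i →
    A * Real.log n ^ 2 ≤ (n : ℝ) - j → ∀ x y : ℤ × ℤ,
      Real.sqrt i * Real.sqrt ((j : ℝ) - i) * Real.sqrt ((n : ℝ) - j) *
        (((SW n).filter (fun w => Lip.PP w i = x ∧ Lip.PP w j = y)).card : ℝ) ≤
          C * Real.sqrt n * ((SW n).card : ℝ) := by
  obtain ⟨A, C, hA, hC, h⟩ := use hmain
  refine ⟨A, C * 2, hA, by positivity, fun n i j hn h1 h2 g0 g1 g2 x y => ?_⟩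
  have e0 : (gl n (i, j) 0 : ℝ) = i := by simp [gl]
  have e1 : (gl n (i, j) 1 : ℝ) = j - i := by simp [gl]; rw [Nat.cast_sub h1.le]
  have e2 : (gl n (i, j) 2 : ℝ) = n - j := by simp [gl]; rw [Nat.cast_sub h2.le]
  have hgl : ∀ s, A * Real.log n ^ 2 ≤ gl n (i, j) s := by
    intro s
    fin_cases s
    · simpa [e0] using g0
    · simpa [e1] using g1
    · simpa [e2] using g2
  have hex : ∃ s s' r : Fin 3, s ≠ s' ∧ s ≠ r ∧ s' ≠ r ∧ gl n (i, j) s ≤ gl n (i, j) r ∧
      gl n (i, j) s' ≤ gl n (i, j) r ∧ Real.sqrt i * Real.sqrt ((j : ℝ) - i) *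
        Real.sqrt ((n : ℝ) - j) = Real.sqrt (gl n (i, j) s) * Real.sqrt (gl n (i, j) s') *
          Real.sqrt (gl n (i, j) r) := by
    rw [← e1, ← e2, ← e0]
    rcases le_total (gl n (i, j) 0) (gl n (i, j) 1) with q1 | q1
    · rcases le_total (gl n (i, j) 1) (gl n (i, j) 2) with q2 | q2
      · exact ⟨0, 1, 2, by decide, by decide, by decide, q1.trans q2, q2, rfl⟩
      · exact ⟨0, 2, 1, by decide, by decide, by decide, q1, q2, by ring⟩
    · rcases le_total (gl n (i, j) 0) (gl n (i, j) 2) with q2 | q2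
      · exact ⟨0, 1, 2, by decide, by decide, by decide, q2, q1.trans q2, rfl⟩
      · exact ⟨1, 2, 0, by decide, by decide, by decide, q1, q2, by ring⟩
  obtain ⟨s, s', r, hs1, hs2, hs3, l1, l2, hprod⟩ := hex
  have key := h n (i, j) hn h1 h2 hgl s s' r hs1 hs2 hs3 (gl n (i, j) s) (gl n (i, j) s')
    (by positivity) (by positivity) le_rfl (by exact_mod_cast l1) le_rfl (by exact_mod_cast l2)
    {(x, y)} 1 zero_le_one (by
      intro a b ha hb
      have m1 := two_le_of_sq ha le_rfl
      have m2 := two_le_of_sq hb le_rfl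
      have tm : ∀ p ∈ range (2 * a + 1) ×ˢ range (2 * b + 1), _ := fun p hp =>
        times s s' r hs1 hs2 hs3 (n := n) (T := (i, j)) h1 h2 a b ((p.1 : ℤ) - a) ((p.2 : ℤ) - b)
          (by omega) (by have := mem_product.mp hp; simp only [mem_range] at this; omega)
          (by omega) (by have := mem_product.mp hp; simp only [mem_range] at this; omega)
          (by omega) (by omega) (by omega)
      refine card_le_of n _ _ (fun w hw p hp p' hp' hE hE' => ?_)
      simp only [Set.mem_singleton_iff, Prod.mk.injEq] at hE hE'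
      have t1 := tm p hp
      have t2 := tm p' hp'
      have q1 := PP_inj hw (by omega) (by omega) (hE.1.trans hE'.1.symm)
      have q2 := PP_inj hw (by omega) (by omega) (hE.2.trans hE'.2.symm)
      have q3 := toNat_inj t1.1 t2.1 q1
      have q4 := toNat_inj (t1.1.trans t1.2.1) (t2.1.trans t2.2.1) q2
      have q5 := dl_inj s s' r hs1 hs2 hs3 ((p.1 : ℤ) - a) ((p.2 : ℤ) - b) ((p'.1 : ℤ) - a)
        ((p'.2 : ℤ) - b) (by linarith) (by linarith)
      exact Prod.ext (by omega) (by omega))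
    ((SW n).filter (fun w => Lip.PP w i = x ∧ Lip.PP w j = y)) (fun w hw => by
      rw [mem_filter] at hw
      exact ⟨hw.1, by simp [hw.2]⟩)
  have hgr : Real.sqrt (gl n (i, j) r) ≤ Real.sqrt n := by
    apply Real.sqrt_le_sqrt
    have : gl n (i, j) r ≤ n := by unfold gl; split_ifs <;> simp <;> omega
    exact_mod_cast this
  rw [hprod]
  have hc0 : (0 : ℝ) ≤ ((SW n).card : ℝ) := Nat.cast_nonneg _
  calc Real.sqrt (gl n (i, j) s) * Real.sqrt (gl n (i, j) s') * Real.sqrt (gl n (i, j) r) * _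
      = Real.sqrt (gl n (i, j) r) * (Real.sqrt (gl n (i, j) s) * Real.sqrt (gl n (i, j) s') *
        (((SW n).filter (fun w => Lip.PP w i = x ∧ Lip.PP w j = y)).card : ℝ)) := by ring
    _ ≤ Real.sqrt n * (C * (1 + 1) * ((SW n).card : ℝ)) :=
        mul_le_mul hgr key (by positivity) (Real.sqrt_nonneg _)
    _ = _ := by ring

/-- one time -/
theorem one (hmain : S_MAIN) : ∃ A C : ℝ, 0 < A ∧ 0 < C ∧ ∀ (n t : ℕ), 2 ≤ n →
    A * Real.log n ^ 2 ≤ t → A * Real.log n ^ 2 ≤ (n : ℝ) - t → ∀ x : ℤ × ℤ,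
      Real.sqrt t * Real.sqrt ((n : ℝ) - t) *
        (((SW n).filter (fun w => Lip.PP w t = x)).card : ℝ) ≤
          C * Real.sqrt n * ((SW n).card : ℝ) := by
  obtain ⟨A, C, hA, hC, h⟩ := use hmain
  obtain ⟨A', hA'⟩ : ∃ A' : ℝ, A' = 2 * A + 8 / Real.log 2 ^ 2 := ⟨_, rfl⟩
  have hl2 : 0 < Real.log 2 := Real.log_pos (by norm_num)
  have hA'0 : 0 < A' := by rw [hA']; positivity
  refine ⟨A', C * 4, hA'0, by positivity, fun n t hn g0 g1 x => ?_⟩
  have hn' : (2 : ℝ) ≤ n := by exact_mod_cast hn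
  have hln : Real.log 2 ≤ Real.log n := Real.log_le_log (by norm_num) hn'
  have hbig : 2 * (A * Real.log n ^ 2) + 8 ≤ A' * Real.log n ^ 2 := by
    rw [hA', add_mul]
    have : 8 ≤ 8 / Real.log 2 ^ 2 * Real.log n ^ 2 := by
      rw [div_mul_eq_mul_div, le_div_iff₀ (by positivity)]
      have : Real.log 2 ^ 2 ≤ Real.log n ^ 2 := by gcongr
      linarith
    linarith
  have hAl : 0 ≤ A * Real.log n ^ 2 := by positivity
  have ht8 : (8 : ℝ) ≤ t := by linarith
  have hnt8 : (8 : ℝ) ≤ (n : ℝ) - t := by linarith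
  have ht8' : 8 ≤ t := by exact_mod_cast ht8
  have hnt8' : t + 8 ≤ n := by
    have : (t : ℝ) + 8 ≤ n := by linarith
    exact_mod_cast this
  have hc0 : (0 : ℝ) ≤ ((SW n).card : ℝ) := Nat.cast_nonneg _
  have hX0 : (0 : ℝ) ≤ (((SW n).filter (fun w => Lip.PP w t = x)).card : ℝ) := Nat.cast_nonneg _
  rcases le_total t (n - t) with htn | htn
  · -- first half
    obtain ⟨u, hu⟩ : ∃ u, u = t + (n - t) / 2 := ⟨_, rfl⟩
    have e0 : (gl n (t, u) 0 : ℝ) = t := by simp [gl]
    have e1 : (t : ℝ) / 2 - 1 / 2 ≤ (gl n (t, u) 1 : ℝ) := by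
      have : t ≤ 2 * gl n (t, u) 1 + 1 := by simp [gl]; omega
      have : (t : ℝ) ≤ 2 * gl n (t, u) 1 + 1 := by exact_mod_cast this
      linarith
    have e2 : (t : ℝ) / 2 ≤ (gl n (t, u) 2 : ℝ) := by
      have : t ≤ 2 * gl n (t, u) 2 := by simp [gl]; omega
      have : (t : ℝ) ≤ 2 * gl n (t, u) 2 := by exact_mod_cast this
      linarith
    have hgl : ∀ s, A * Real.log n ^ 2 ≤ gl n (t, u) s := by
      intro s
      fin_cases s
      · show _ ≤ (gl n (t, u) 0 : ℝ)
        linarith
      · show _ ≤ (gl n (t, u) 1 : ℝ)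
        linarith
      · show _ ≤ (gl n (t, u) 2 : ℝ)
        linarith
    have key := h n (t, u) hn (by simp; omega) (by simp; omega) hgl 0 1 2 (by decide) (by decide)
      (by decide) ((t : ℝ) / 2) 1 (by positivity) zero_le_one (by rw [e0]; linarith) e2
      (by linarith) (by linarith) {p | p.1 = x} 1 zero_le_one (by
        intro a b ha hb
        have m1 := two_le_of_sq (m := t) ha (by linarith)
        have m2 : b = 0 := by
          by_contra hb0
          have : 1 ≤ b := by omega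
          have : (1 : ℝ) ≤ b := by exact_mod_cast this
          nlinarith
        subst m2
        refine card_le_of n _ _ (fun w hw p hp p' hp' hE hE' => ?_)
        simp only [Set.mem_ofPred_eq, dl] at hE hE'
        simp at hE hE'
        have := mem_product.mp hp
        have := mem_product.mp hp'
        simp only [mem_range] at *
        have q1 := PP_inj hw (by omega) (by omega) (hE.trans hE'.symm)
        exact Prod.ext (by omega) (by omega))
      ((SW n).filter (fun w => Lip.PP w t = x)) (fun w hw => mem_filter.mp hw)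
    rw [Real.sqrt_one, mul_one] at key
    have hst : Real.sqrt t = Real.sqrt 2 * Real.sqrt ((t : ℝ) / 2) := by
      rw [← Real.sqrt_mul (by norm_num)]
      congr 1
      ring
    have h2 : Real.sqrt 2 ≤ 2 := by
      rw [Real.sqrt_le_left (by norm_num)]; norm_num
    have hsn : Real.sqrt ((n : ℝ) - t) ≤ Real.sqrt n := Real.sqrt_le_sqrt (by linarith)
    calc Real.sqrt t * Real.sqrt ((n : ℝ) - t) *
        (((SW n).filter (fun w => Lip.PP w t = x)).card : ℝ)
        = Real.sqrt 2 * Real.sqrt ((n : ℝ) - t) * (Real.sqrt ((t : ℝ) / 2) *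
          (((SW n).filter (fun w => Lip.PP w t = x)).card : ℝ)) := by rw [hst]; ring
      _ ≤ 2 * Real.sqrt n * (C * (1 + 1) * ((SW n).card : ℝ)) := by
          refine mul_le_mul (by gcongr) key (by positivity) (by positivity)
      _ = _ := by ring
  · obtain ⟨u, hu⟩ : ∃ u, u = t / 2 := ⟨_, rfl⟩
    have hm : n - t ≤ t := htn
    obtain ⟨m, hm'⟩ : ∃ m, m = n - t := ⟨_, rfl⟩
    have hmr : (m : ℝ) = n - t := by rw [hm', Nat.cast_sub (by omega)]
    have e0 : (m : ℝ) / 2 - 1 / 2 ≤ (gl n (u, t) 0 : ℝ) := by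
      have : m ≤ 2 * gl n (u, t) 0 + 1 := by simp [gl]; omega
      have : (m : ℝ) ≤ 2 * gl n (u, t) 0 + 1 := by exact_mod_cast this
      linarith
    have e1 : (m : ℝ) / 2 ≤ (gl n (u, t) 1 : ℝ) := by
      have : m ≤ 2 * gl n (u, t) 1 := by simp [gl]; omega
      have : (m : ℝ) ≤ 2 * gl n (u, t) 1 := by exact_mod_cast this
      linarith
    have e2 : (gl n (u, t) 2 : ℝ) = m := by simp [gl, hm']
    have hgl : ∀ s, A * Real.log n ^ 2 ≤ gl n (u, t) s := by
      intro s
      fin_cases s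
      · show _ ≤ (gl n (u, t) 0 : ℝ)
        linarith
      · show _ ≤ (gl n (u, t) 1 : ℝ)
        linarith
      · show _ ≤ (gl n (u, t) 2 : ℝ)
        linarith
    have key := h n (u, t) hn (by simp; omega) (by simp; omega) hgl 2 0 1 (by decide) (by decide)
      (by decide) ((m : ℝ) / 2) 1 (by positivity) zero_le_one (by rw [e2]; linarith) e1
      (by linarith) (by linarith) {p | p.2 = x} 1 zero_le_one (by
        intro a b ha hb
        have m1 := two_le_of_sq (m := m) ha (by linarith)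
        have m2 : b = 0 := by
          by_contra hb0
          have : 1 ≤ b := by omega
          have : (1 : ℝ) ≤ b := by exact_mod_cast this
          nlinarith
        subst m2
        refine card_le_of n _ _ (fun w hw p hp p' hp' hE hE' => ?_)
        simp only [Set.mem_ofPred_eq, dl] at hE hE'
        simp at hE hE'
        have := mem_product.mp hp
        have := mem_product.mp hp'
        simp only [mem_range] at *
        have q1 := PP_inj hw (by omega) (by omega) (hE.trans hE'.symm)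
        exact Prod.ext (by omega) (by omega))
      ((SW n).filter (fun w => Lip.PP w t = x)) (fun w hw => mem_filter.mp hw)
    rw [Real.sqrt_one, mul_one] at key
    rw [← hmr]
    have hst : Real.sqrt m = Real.sqrt 2 * Real.sqrt ((m : ℝ) / 2) := by
      rw [← Real.sqrt_mul (by norm_num)]
      congr 1
      ring
    have h2 : Real.sqrt 2 ≤ 2 := by
      rw [Real.sqrt_le_left (by norm_num)]; norm_num
    have hsn : Real.sqrt (t : ℝ) ≤ Real.sqrt n := Real.sqrt_le_sqrt (by linarith)
    calc Real.sqrt t * Real.sqrt m *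
        (((SW n).filter (fun w => Lip.PP w t = x)).card : ℝ)
        = Real.sqrt 2 * Real.sqrt t * (Real.sqrt ((m : ℝ) / 2) *
          (((SW n).filter (fun w => Lip.PP w t = x)).card : ℝ)) := by rw [hst]; ring
      _ ≤ 2 * Real.sqrt n * (C * (1 + 1) * ((SW n).card : ℝ)) := by
          refine mul_le_mul (by gcongr) key (by positivity) (by positivity)
      _ = _ := by ring

end Pool.Agent.N929.EX
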