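import Pool.Agent.N929.EX.Main
import Pool.Agent.N400.EX.TOG
import Pool.Agent.N9.EX.CLS
import Pool.Agent.N232.EX.BIN
import Pool.Agent.N322.EX.Sel
import Pool.Agent.N27.EX.Off
import Pool.Agent.N457.EX.Plq
import Pool.Agent.N348.EX.Up
import Pool.Agent.N348.EX.Few
import Pool.Agent.N441.EX.Contacts

/-! The smoothing inequality, unconditionally. -/

set_option autoImplicit false

namespace Pool.Agent.N929.EX

theorem s_main : S_MAIN :=
  main (Pool.Agent.N9.EX.cls Pool.Agent.N400.EX.tog) Pool.Agent.N232.EX.bin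
    Pool.Agent.N322.EX.sel (Pool.Agent.N27.EX.off Pool.Agent.N400.EX.tog)
    Pool.Agent.N457.EX.plq Pool.Agent.N348.EX.up
    (Pool.Agent.N348.EX.few_of_up Pool.Agent.N348.EX.up)

theorem s_con : S_CON := Pool.Agent.N441.EX.con

end Pool.Agent.N929.EX
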