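import Pool.Agent.N929.EX.Stm

/-! Consequences of the smoothing inequality. -/

set_option autoImplicit false
set_option linter.unusedVariables false

namespace Pool.Agent.N929.EX

open Pool.Agent.H976R2 Pool.Agent.H976R2.Dir Finset
open scoped Classical

/-- positions at different times are different -/
theorem PP_inj {n : ℕ} {w : List Dir} (hw : w ∈ SW n) {i j : ℕ} (hi : i ≤ n) (hj : j ≤ n)
    (h : Lip.PP w i = Lip.PP w j) : i = j := by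
  have h1 := (pth_saw hw).2.2
  have h2 := @h1 ⟨i, by omega⟩ ⟨j, by omega⟩ (by simpa [pth, Lip.PP] using h)
  simpa using h2

theorem sum_card_filter {ι : Type*} (I : Finset ι) (n : ℕ) (E : ι → List Dir → Prop) :
    ∑ i ∈ I, (((SW n).filter (E i)).card : ℝ) =
      ∑ w ∈ SW n, ((I.filter (fun i => E i w)).card : ℝ) := by
  have h1 : ∀ i ∈ I, (((SW n).filter (E i)).card : ℝ) =
      ∑ w ∈ SW n, if E i w then (1 : ℝ) else 0 := by
    intro i _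
    rw [Finset.card_filter]
    push_cast
    rfl
  have h2 : ∀ w ∈ SW n, ((I.filter (fun i => E i w)).card : ℝ) =
      ∑ i ∈ I, if E i w then (1 : ℝ) else 0 := by
    intro w _
    rw [Finset.card_filter]
    push_cast
    rfl
  rw [Finset.sum_congr rfl h1, Finset.sum_congr rfl h2, Finset.sum_comm]

theorem fl {C : ℝ} (hC : 0 < C) {g : ℝ} (hg : 0 ≤ g) :
    ∃ a : ℕ, C * (a : ℝ) ^ 2 ≤ g ∧ Real.sqrt g ≤ Real.sqrt C * (a + 1) := by
  refine ⟨⌊Real.sqrt (g / C)⌋₊, ?_, ?_⟩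
  · have h1 : ((⌊Real.sqrt (g / C)⌋₊ : ℕ) : ℝ) ≤ Real.sqrt (g / C) :=
      Nat.floor_le (Real.sqrt_nonneg _)
    have h2 : ((⌊Real.sqrt (g / C)⌋₊ : ℕ) : ℝ) ^ 2 ≤ g / C := by
      calc ((⌊Real.sqrt (g / C)⌋₊ : ℕ) : ℝ) ^ 2 ≤ Real.sqrt (g / C) ^ 2 := by gcongr
        _ = g / C := Real.sq_sqrt (by positivity)
    calc C * ((⌊Real.sqrt (g / C)⌋₊ : ℕ) : ℝ) ^ 2 ≤ C * (g / C) := by gcongr
      _ = g := by field_simp
  · have h1 : Real.sqrt (g / C) < (⌊Real.sqrt (g / C)⌋₊ : ℕ) + 1 := Nat.lt_floor_add_one _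
    have h2 : Real.sqrt g = Real.sqrt C * Real.sqrt (g / C) := by
      rw [← Real.sqrt_mul hC.le]
      congr 1
      field_simp
    rw [h2]
    exact mul_le_mul_of_nonneg_left h1.le (Real.sqrt_nonneg _)

/-- the general consequence: if the shifted events are almost disjoint, then the event is rare -/
theorem gen {n : ℕ} (hn : 2 ≤ n) {C : ℝ} (hC : 0 < C) {X M : ℝ} {g g' : ℝ} (hg0 : 0 ≤ g)
    (hg0' : 0 ≤ g') (hg : g ≤ n) (hg' : g' ≤ n) {a b : ℕ}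
    (ha : Real.sqrt g ≤ Real.sqrt C * (a + 1)) (hb : Real.sqrt g' ≤ Real.sqrt C * (b + 1))
    {R c : ℝ} (hc : 0 ≤ c) (hR : R ≤ M * c) (hM : 0 ≤ M)
    (hX : X ≤ C / (((a : ℝ) + 1) * ((b : ℝ) + 1)) * R + c / (n : ℝ) ^ 10) :
    Real.sqrt g * Real.sqrt g' * X ≤ (C ^ 2 * M + 1) * c := by
  have hn' : (2 : ℝ) ≤ n := by exact_mod_cast hn
  have hs : Real.sqrt g * Real.sqrt g' ≤ n := by
    calc Real.sqrt g * Real.sqrt g' ≤ Real.sqrt n * Real.sqrt n := by gcongr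
      _ = n := Real.mul_self_sqrt (by positivity)
  have hab : (0 : ℝ) < ((a : ℝ) + 1) * ((b : ℝ) + 1) := by positivity
  have h1 : Real.sqrt g * Real.sqrt g' ≤ C * (((a : ℝ) + 1) * ((b : ℝ) + 1)) := by
    calc Real.sqrt g * Real.sqrt g' ≤ (Real.sqrt C * (a + 1)) * (Real.sqrt C * (b + 1)) := by
          gcongr
      _ = (Real.sqrt C * Real.sqrt C) * (((a : ℝ) + 1) * ((b : ℝ) + 1)) := by ring
      _ = _ := by rw [Real.mul_self_sqrt hC.le]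
  have hss : 0 ≤ Real.sqrt g * Real.sqrt g' := by positivity
  calc Real.sqrt g * Real.sqrt g' * X
      ≤ Real.sqrt g * Real.sqrt g' *
        (C / (((a : ℝ) + 1) * ((b : ℝ) + 1)) * (M * c) + c / (n : ℝ) ^ 10) := by
        refine mul_le_mul_of_nonneg_left (hX.trans ?_) hss
        gcongr
    _ = Real.sqrt g * Real.sqrt g' / (((a : ℝ) + 1) * ((b : ℝ) + 1)) * (C * (M * c)) +
        Real.sqrt g * Real.sqrt g' / (n : ℝ) ^ 10 * c := by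
        field_simp
    _ ≤ C * (C * (M * c)) + 1 * c := by
        refine add_le_add (mul_le_mul_of_nonneg_right ?_ (by positivity))
          (mul_le_mul_of_nonneg_right ?_ hc)
        · rw [div_le_iff₀ hab]; exact h1
        · rw [div_le_one (by positivity)]
          refine hs.trans ?_
          exact le_self_pow₀ (by linarith) (by norm_num)
    _ = _ := by ring

/-- the shifts determine `i`, `i'` -/
theorem dl_inj (s s' r : Fin 3) (h1 : s ≠ s') (h2 : s ≠ r) (h3 : s' ≠ r) (a b a' b' : ℤ)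
    (e0 : dl s s' r a b 0 = dl s s' r a' b' 0)
    (e1 : dl s s' r a b 0 + dl s s' r a b 1 = dl s s' r a' b' 0 + dl s s' r a' b' 1) :
    a = a' ∧ b = b' := by
  unfold dl at e0 e1
  fin_cases s <;> fin_cases s' <;> fin_cases r <;> simp_all <;> omega

/-- the lengths of the three parts after the shift are nonnegative -/
theorem gl_nonneg (s s' r : Fin 3) (h1 : s ≠ s') (h2 : s ≠ r) (h3 : s' ≠ r) (g : Fin 3 → ℕ)
    (a b : ℕ) (α β : ℤ) (k1 : -(a : ℤ) ≤ α) (k2 : α ≤ a) (k3 : -(b : ℤ) ≤ β) (k4 : β ≤ b)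
    (l1 : 2 * a ≤ g s) (l2 : 2 * b ≤ g s') (l3 : 2 * a + 2 * b ≤ g r) (t : Fin 3) :
    0 ≤ (g t : ℤ) + 2 * dl s s' r α β t := by
  unfold dl
  fin_cases s <;> fin_cases s' <;> fin_cases r <;> simp_all <;> fin_cases t <;> simp_all <;> omega

theorem times (s s' r : Fin 3) (h1 : s ≠ s') (h2 : s ≠ r) (h3 : s' ≠ r) {n : ℕ} {T : ℕ × ℕ}
    (hT1 : T.1 < T.2) (hT2 : T.2 < n)
    (a b : ℕ) (α β : ℤ) (k1 : -(a : ℤ) ≤ α) (k2 : α ≤ a) (k3 : -(b : ℤ) ≤ β) (k4 : β ≤ b)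
    (l1 : 2 * a ≤ gl n T s) (l2 : 2 * b ≤ gl n T s') (l3 : 2 * a + 2 * b ≤ gl n T r) :
    0 ≤ (T.1 : ℤ) + 2 * dl s s' r α β 0 ∧
    (T.1 : ℤ) + 2 * dl s s' r α β 0 ≤ (T.2 : ℤ) + 2 * dl s s' r α β 0 + 2 * dl s s' r α β 1 ∧
    (T.2 : ℤ) + 2 * dl s s' r α β 0 + 2 * dl s s' r α β 1 ≤ n := by
  have g0 := gl_nonneg s s' r h1 h2 h3 (gl n T) a b α β k1 k2 k3 k4 l1 l2 l3 0
  have g1 := gl_nonneg s s' r h1 h2 h3 (gl n T) a b α β k1 k2 k3 k4 l1 l2 l3 1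
  have g2 := gl_nonneg s s' r h1 h2 h3 (gl n T) a b α β k1 k2 k3 k4 l1 l2 l3 2
  have e0 : (gl n T 0 : ℤ) = T.1 := by simp [gl]
  have e1 : (gl n T 1 : ℤ) = T.2 - T.1 := by simp [gl]; omega
  have e2 : (gl n T 2 : ℤ) = n - T.2 := by simp [gl]; omega
  have e3 : dl s s' r α β 0 + dl s s' r α β 1 + dl s s' r α β 2 = 0 := by
    clear g0 g1 g2 l1 l2 l3 e0 e1 e2
    unfold dl
    fin_cases s <;> fin_cases s' <;> fin_cases r <;> simp_all <;> ring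
  rw [e0] at g0
  rw [e1] at g1
  rw [e2] at g2
  refine ⟨g0, by linarith, by linarith⟩

/-- the main consequence: `M` bounds the number of shifted events which occur -/
theorem use (hmain : S_MAIN) : ∃ A C : ℝ, 0 < A ∧ 0 < C ∧ ∀ (n : ℕ) (T : ℕ × ℕ), 2 ≤ n →
    T.1 < T.2 → T.2 < n → (∀ s, A * Real.log n ^ 2 ≤ gl n T s) →
    ∀ s s' r : Fin 3, s ≠ s' → s ≠ r → s' ≠ r → ∀ g g' : ℝ, 0 ≤ g → 0 ≤ g' →
      g ≤ gl n T s → g ≤ gl n T r → g' ≤ gl n T s' → g' ≤ gl n T r →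
      ∀ (Z : Set ((ℤ × ℤ) × (ℤ × ℤ))) (M : ℝ), 0 ≤ M →
      (∀ a b : ℕ, 64 * (a : ℝ) ^ 2 ≤ g → 64 * (b : ℝ) ^ 2 ≤ g' →
        ∑ p ∈ range (2 * a + 1) ×ˢ range (2 * b + 1), (((SW n).filter (fun w =>
            (Lip.PP w ((T.1 : ℤ) + 2 * dl s s' r ((p.1 : ℤ) - a) ((p.2 : ℤ) - b) 0).toNat,
             Lip.PP w ((T.2 : ℤ) + 2 * dl s s' r ((p.1 : ℤ) - a) ((p.2 : ℤ) - b) 0 +
               2 * dl s s' r ((p.1 : ℤ) - a) ((p.2 : ℤ) - b) 1).toNat) ∈ Z)).card : ℝ) ≤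
          M * ((SW n).card : ℝ)) →
      ∀ X : Finset (List Dir), (∀ w ∈ X, w ∈ SW n ∧ (Lip.PP w T.1, Lip.PP w T.2) ∈ Z) →
      Real.sqrt g * Real.sqrt g' * (X.card : ℝ) ≤ C * (M + 1) * ((SW n).card : ℝ) := by
  obtain ⟨A, C, hA, hC, h⟩ := hmain
  obtain ⟨C', hC'⟩ : ∃ C' : ℝ, C' = C + 64 := ⟨_, rfl⟩
  have hC'0 : 0 < C' := by rw [hC']; linarith
  refine ⟨A, C' ^ 2 + 1, hA, by positivity,
    fun n T hn h1 h2 hg s s' r hs1 hs2 hs3 g g' hg0 hg0' k1 k2 k3 k4 Z M hM hZ W hW => ?_⟩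
  obtain ⟨a, ha1, ha2⟩ := fl hC'0 hg0
  obtain ⟨b, hb1, hb2⟩ := fl hC'0 hg0'
  have hgn : ∀ t, (gl n T t : ℝ) ≤ n := by
    intro t
    have : gl n T t ≤ n := by
      unfold gl
      split_ifs <;> omega
    exact_mod_cast this
  have hCC : ∀ (x : ℕ) (y : ℝ), C' * (x : ℝ) ^ 2 ≤ y → C * (x : ℝ) ^ 2 ≤ y ∧ 64 * (x : ℝ) ^ 2 ≤ y := by
    intro x y hxy
    rw [hC'] at hxy
    constructor
    · nlinarith [sq_nonneg (x : ℝ)]
    · nlinarith [sq_nonneg (x : ℝ), mul_nonneg hC.le (sq_nonneg (x : ℝ))]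
  have key := h n T hn h1 h2 hg s s' r hs1 hs2 hs3 a b ((hCC _ _ ha1).1.trans k1)
    ((hCC _ _ ha1).1.trans k2) ((hCC _ _ hb1).1.trans k3) ((hCC _ _ hb1).1.trans k4) Z
  rw [← Finset.sum_product (f := fun p : ℕ × ℕ => (((SW n).filter (fun w =>
            (Lip.PP w ((T.1 : ℤ) + 2 * dl s s' r ((p.1 : ℤ) - a) ((p.2 : ℤ) - b) 0).toNat,
             Lip.PP w ((T.2 : ℤ) + 2 * dl s s' r ((p.1 : ℤ) - a) ((p.2 : ℤ) - b) 0 +
               2 * dl s s' r ((p.1 : ℤ) - a) ((p.2 : ℤ) - b) 1).toNat) ∈ Z)).card : ℝ))] at key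
  have hR := hZ a b (hCC _ _ ha1).2 (hCC _ _ hb1).2
  have hcn : (0 : ℝ) ≤ ((SW n).card : ℝ) := Nat.cast_nonneg _
  have hab : (0 : ℝ) < ((a : ℝ) + 1) * ((b : ℝ) + 1) := by positivity
  have hX : (((SW n).filter (fun w => (Lip.PP w T.1, Lip.PP w T.2) ∈ Z)).card : ℝ) ≤
      C' / (((a : ℝ) + 1) * ((b : ℝ) + 1)) * (M * ((SW n).card : ℝ)) +
        ((SW n).card : ℝ) / (n : ℝ) ^ 10 := by
    refine key.trans ?_
    gcongr
    rw [hC']
    linarith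
  have := gen hn hC'0 hg0 hg0' (k1.trans (hgn s)) (k3.trans (hgn s')) ha2 hb2 hcn le_rfl hM hX
  have hWX : (W.card : ℝ) ≤
      (((SW n).filter (fun w => (Lip.PP w T.1, Lip.PP w T.2) ∈ Z)).card : ℝ) := by
    exact_mod_cast card_le_card (fun w hw => mem_filter.mpr (hW w hw))
  refine (mul_le_mul_of_nonneg_left hWX (by positivity)).trans (this.trans ?_)
  refine mul_le_mul_of_nonneg_right ?_ hcn
  nlinarith [sq_nonneg C']

end Pool.Agent.N929.EX
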