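import Pool.Agent.N929.EX.MI

/-!
# The smoothing inequality
-/

set_option autoImplicit false
set_option linter.unusedVariables false

namespace Pool.Agent.N929.EX

open Pool.Agent.H976R2 Pool.Agent.H976R2.Dir Finset
open scoped Classical

noncomputable section

/-- the word has few bumps in the window of the part `s` -/
def bwin (n : ℕ) (T : ℕ × ℕ) (s : Fin 3) (w : List Dir) : ℕ :=
  if s = 0 then BW 0 (n - T.1 + 1) w else
    if s = 1 then BW (T.1 + 1) (n - T.2 + 1) w else BW (T.2 + 1) 0 w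

theorem few_part (hfew : S_FEW) : ∃ A D : ℝ, 0 < A ∧ 0 < D ∧ ∀ (n : ℕ) (T : ℕ × ℕ), 2 ≤ n →
    T.1 < T.2 → T.2 < n → (∀ s, A * Real.log n ^ 2 ≤ gl n T s) → ∀ s : Fin 3,
    (((SW n).filter (fun w => 4000 * bwin n T s w < gl n T s)).card : ℝ) ≤
      D * Real.exp (-((gl n T s : ℝ) / 5000)) * ((SW n).card : ℝ) := by
  obtain ⟨A, D, hA, hD, h⟩ := hfew
  refine ⟨A + 20, D, by positivity, hD, fun n T hn h1 h2 hg s => ?_⟩
  have hn' : (2 : ℝ) ≤ n := by exact_mod_cast hn
  have hlog : (0.69 : ℝ) ≤ Real.log n := by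
    have := Real.log_two_gt_d9
    have h3 : Real.log 2 ≤ Real.log n := Real.log_le_log (by norm_num) hn'
    linarith
  have hlog2 : (0.476 : ℝ) ≤ Real.log n ^ 2 := by nlinarith
  have hgs := hg s
  have hg8 : (8 : ℝ) ≤ gl n T s := by nlinarith
  have key : ∀ (a r : ℕ) (W : List Dir → ℕ), (∀ w, W w = BW a r w) →
      (gl n T s : ℝ) - 2 ≤ (n : ℝ) - a - r → (n : ℝ) - a - r ≤ gl n T s →
      (((SW n).filter (fun w => 4000 * W w < gl n T s)).card : ℝ) ≤
      D * Real.exp (-((gl n T s : ℝ) / 5000)) * ((SW n).card : ℝ) := by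
    intro a r W hW k1 k2
    have h3 := h a r n hn (by nlinarith)
    have h4 : (((SW n).filter (fun w => 4000 * W w < gl n T s)).card : ℝ) ≤
        (((SW n).filter (fun w => (BW a r w : ℝ) < ((n : ℝ) - a - r) / 2000)).card : ℝ) := by
      have : ((SW n).filter (fun w => 4000 * W w < gl n T s)).card ≤
          ((SW n).filter (fun w => (BW a r w : ℝ) < ((n : ℝ) - a - r) / 2000)).card := by
        refine card_le_card (fun w hw => ?_)
        rw [mem_filter] at hw ⊢
        refine ⟨hw.1, ?_⟩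
        have h5 : (4000 * (W w : ℝ)) < gl n T s := by exact_mod_cast hw.2
        rw [hW] at h5
        rw [lt_div_iff₀ (by norm_num)]
        linarith
      exact_mod_cast this
    refine h4.trans (h3.trans ?_)
    have h5 : Real.exp (-(((n : ℝ) - a - r) / 2500)) ≤ Real.exp (-((gl n T s : ℝ) / 5000)) := by
      apply Real.exp_le_exp.mpr
      have : (gl n T s : ℝ) / 5000 ≤ ((n : ℝ) - a - r) / 2500 := by
        rw [div_le_div_iff₀ (by norm_num) (by norm_num)]
        nlinarith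
      linarith
    gcongr
  have c1 : ((n - T.1 : ℕ) : ℝ) = n - T.1 := by rw [Nat.cast_sub (by omega)]
  have c2 : ((n - T.2 : ℕ) : ℝ) = n - T.2 := by rw [Nat.cast_sub (by omega)]
  have c3 : ((T.2 - T.1 : ℕ) : ℝ) = T.2 - T.1 := by rw [Nat.cast_sub (by omega)]
  fin_cases s
  · refine key 0 (n - T.1 + 1) _ (fun w => rfl) ?_ ?_
    · simp only [gl]; simp; rw [c1]; linarith
    · simp only [gl]; simp; rw [c1]; linarith
  · refine key (T.1 + 1) (n - T.2 + 1) _ (fun w => rfl) ?_ ?_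
    · simp only [gl]; simp; rw [c2, c3]; linarith
    · simp only [gl]; simp; rw [c2, c3]; linarith
  · refine key (T.2 + 1) 0 _ (fun w => rfl) ?_ ?_
    · simp only [gl]; simp; rw [c2]; linarith
    · simp only [gl]; simp; rw [c2]; linarith

/-- the real analysis of the error terms -/
theorem err (D K : ℝ) (hD : 0 < D) (hK : 0 ≤ K) : ∃ A : ℝ, 0 < A ∧ ∀ (n : ℕ), 2 ≤ n → ∀ g : ℕ,
    A * Real.log n ^ 2 ≤ g →
    D * Real.exp (-((g : ℝ) / 5000)) ≤ 1 / (6 * (n : ℝ) ^ 10) ∧
    (2 / 7 : ℝ) ^ (g / 4000000 / 8) * Real.exp (K * Real.log n ^ 2) * 512 ≤ 1 / (6 * (n : ℝ) ^ 10) ∧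
    10 ^ 10 ≤ g := by
  refine ⟨10 ^ 11 + 10 ^ 9 * K + 10 ^ 5 * D, by positivity, fun n hn g hg => ?_⟩
  have hn' : (2 : ℝ) ≤ n := by exact_mod_cast hn
  have hn0 : (0 : ℝ) < n := by linarith
  obtain ⟨l, hl⟩ : ∃ l : ℝ, l = Real.log n := ⟨_, rfl⟩
  have hlog : (0.69 : ℝ) ≤ l := by
    have := Real.log_two_gt_d9
    have h3 : Real.log 2 ≤ Real.log n := Real.log_le_log (by norm_num) hn'
    rw [hl]; linarith
  have hn10 : (n : ℝ) ^ 10 = Real.exp (10 * l) := by
    rw [hl, mul_comm, Real.exp_mul, Real.exp_log hn0]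
    norm_num
  rw [← hl] at hg ⊢
  have hl2 : (0.476 : ℝ) ≤ l ^ 2 := by nlinarith
  have hl3 : l ≤ 1.45 * l ^ 2 := by nlinarith
  have hg10 : (10 : ℝ) ^ 10 ≤ g := by nlinarith [mul_nonneg hK (sq_nonneg l), mul_nonneg hD.le (sq_nonneg l)]
  have hg10' : 10 ^ 10 ≤ g := by exact_mod_cast hg10
  have h6 : (6 : ℝ) ≤ Real.exp 2 := by
    have := Real.add_one_le_exp (1 : ℝ)
    have h7 : (2.7182818283 : ℝ) < Real.exp 1 := Real.exp_one_gt_d9
    have h8 : Real.exp 2 = Real.exp 1 * Real.exp 1 := by rw [← Real.exp_add]; norm_num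
    rw [h8]; nlinarith
  have e6 : 1 / (6 * (n : ℝ) ^ 10) ≥ Real.exp (-(2 + 10 * l)) := by
    rw [hn10, Real.exp_neg, ge_iff_le, ← one_div]
    apply one_div_le_one_div_of_le (by positivity)
    rw [Real.exp_add]
    gcongr
  refine ⟨?_, ?_, hg10'⟩
  · refine le_trans ?_ e6
    have hDe : D ≤ Real.exp D := by
      have := Real.add_one_le_exp D
      linarith
    calc D * Real.exp (-((g : ℝ) / 5000)) ≤ Real.exp D * Real.exp (-((g : ℝ) / 5000)) := by gcongr
      _ = Real.exp (D + -((g : ℝ) / 5000)) := by rw [Real.exp_add]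
      _ ≤ Real.exp (-(2 + 10 * l)) := by
          apply Real.exp_le_exp.mpr
          have : (g : ℝ) / 5000 ≥ 10 ^ 6 * l ^ 2 + 20 * D * l ^ 2 := by
            rw [ge_iff_le, le_div_iff₀ (by norm_num)]
            nlinarith [mul_nonneg hK (sq_nonneg l), mul_nonneg hD.le (sq_nonneg l)]
          nlinarith [mul_nonneg hD.le (sq_nonneg l)]
  · refine le_trans ?_ e6
    obtain ⟨m, hm⟩ : ∃ m : ℕ, m = g / 4000000 / 8 := ⟨_, rfl⟩
    rw [← hm]
    have hm1 : g < 32000000 * (m + 1) := by omega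
    have hm2 : (g : ℝ) < 32000000 * ((m : ℝ) + 1) := by exact_mod_cast hm1
    have hp : (2 / 7 : ℝ) ^ m ≤ Real.exp (-(m : ℝ)) := by
      have h7 : (2.7182818286 : ℝ) > Real.exp 1 := Real.exp_one_lt_d9
      have h9 : (2 / 7 : ℝ) ≤ Real.exp (-1) := by
        rw [Real.exp_neg, ← one_div, div_le_div_iff₀ (by norm_num) (Real.exp_pos _)]
        linarith
      calc (2 / 7 : ℝ) ^ m ≤ Real.exp (-1) ^ m := pow_le_pow_left₀ (by norm_num) h9 m
        _ = Real.exp (-(m : ℝ)) := by rw [← Real.exp_nat_mul]; ring_nf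
    have h512 : (512 : ℝ) ≤ Real.exp 9 := by
      have h7 : (2 : ℝ) ≤ Real.exp 1 := by
        have := Real.add_one_le_exp (1 : ℝ)
        linarith
      have h8 : Real.exp 9 = Real.exp 1 ^ 9 := by rw [← Real.exp_nat_mul]; norm_num
      rw [h8]
      calc (512 : ℝ) = 2 ^ 9 := by norm_num
        _ ≤ Real.exp 1 ^ 9 := pow_le_pow_left₀ (by norm_num) h7 9
    calc (2 / 7 : ℝ) ^ m * Real.exp (K * l ^ 2) * 512
        ≤ Real.exp (-(m : ℝ)) * Real.exp (K * l ^ 2) * Real.exp 9 := by gcongr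
      _ = Real.exp (-(m : ℝ) + K * l ^ 2 + 9) := by rw [Real.exp_add, Real.exp_add]
      _ ≤ Real.exp (-(2 + 10 * l)) := by
          apply Real.exp_le_exp.mpr
          have : (m : ℝ) ≥ 10 ^ 3 * l ^ 2 + 30 * K * l ^ 2 - 1 := by
            nlinarith [mul_nonneg hK (sq_nonneg l), mul_nonneg hD.le (sq_nonneg l)]
          nlinarith [mul_nonneg hK (sq_nonneg l)]

theorem q_aux (c : ℝ) {x : ℝ} (hx : 0 < x) : 6 * (1 / (6 * x ^ 10) * c) = c / x ^ 10 := by
  field_simp

theorem main (hc : S_CLS) (hb : S_BIN) (hsel : S_SEL) (hoff : S_OFF) (hplq : S_PLQ) (hup : S_UP)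
    (hfew : S_FEW) : S_MAIN := by
  obtain ⟨A1, D, hA1, hD, hF⟩ := few_part hfew
  obtain ⟨μ, K, hμ, hK, hlow, hupp⟩ := hup
  obtain ⟨A2, hA2, hE⟩ := err D K hD hK
  obtain ⟨C, hC⟩ : ∃ C : ℝ, C = 1000000000 := ⟨_, rfl⟩
  refine ⟨A1 + A2, C, by positivity, by rw [hC]; norm_num,
    fun n T hn h1 h2 hg s s' r hs1 hs2 hs3 a b ha1 ha2 hb1 hb2 Z => ?_⟩
  have hlog2 : 0 ≤ Real.log n ^ 2 := sq_nonneg _
  have hgA1 : ∀ t, A1 * Real.log n ^ 2 ≤ gl n T t := fun t => by
    have := hg t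
    nlinarith [mul_nonneg hA2.le hlog2]
  have hgA2 : ∀ t, A2 * Real.log n ^ 2 ≤ gl n T t := fun t => by
    have := hg t
    nlinarith [mul_nonneg hA1.le hlog2]
  have hn' : (2 : ℝ) ≤ n := by exact_mod_cast hn
  have hcn : (0 : ℝ) < ((SW n).card : ℝ) := lt_of_lt_of_le (by positivity) (hlow n)
  obtain ⟨c, hcc⟩ : ∃ c : ℝ, c = ((SW n).card : ℝ) := ⟨_, rfl⟩
  obtain ⟨ι, hι1, hι2, Λ, hΛ, hsel⟩ := hsel (n + 1)
  obtain ⟨R, hR⟩ : ∃ R : ℝ, R = ∑ i ∈ range (2 * a + 1), ∑ i' ∈ range (2 * b + 1),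
    ((XX n T s s' r a b Z i i').card : ℝ) := ⟨_, rfl⟩
  obtain ⟨X, hX⟩ : ∃ X, X = (SW n).filter (fun w => (Lip.PP w T.1, Lip.PP w T.2) ∈ Z) := ⟨_, rfl⟩
  obtain ⟨Fw, hFw⟩ : ∃ Fw : Fin 3 → Finset (List Dir), ∀ t,
    Fw t = (SW n).filter (fun w => 4000 * bwin n T t w < gl n T t) := ⟨_, fun _ => rfl⟩
  obtain ⟨Y, hY⟩ : ∃ Y : ι → Finset (List Dir), ∀ i, Y i = (SW n).filter
    (fun w => (Lip.PP w T.1, Lip.PP w T.2) ∈ Z ∧ Gd (Λ i) T s s' r a b w) := ⟨_, fun _ => rfl⟩
  obtain ⟨k, hk⟩ : ∃ k : Fin 3 → ℕ, ∀ t, k t = gl n T t / 4000000 := ⟨_, fun _ => rfl⟩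
  obtain ⟨EE', hEE⟩ : ∃ EE' : ι → Fin 3 → Finset (List Dir), ∀ i t, EE' i t = (SW n).filter
    (fun w => k t ≤ (OO (Λ i) t T w).card ∧
      (DD (Λ i) t T w).card ≤ (OO (Λ i) t T w).card + k t / 8) := ⟨_, fun _ _ => rfl⟩
  -- the part lengths
  have hgn : ∀ t, gl n T t ≤ n := by
    intro t
    unfold gl
    split_ifs <;> omega
  -- the sets EE'
  have hEb : ∀ i t, ((EE' i t).card : ℝ) ≤ 1 / (6 * (n : ℝ) ^ 10) * c / 128 := by
    intro i t
    have g1 := hoff (Λ i) (hΛ i) t T n (k t / 8) (k t / 8) (k t) h1.le h2.le le_rfl (by omega)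
      (by
        rintro rfl
        have := hk 0
        simp only [gl] at this
        simp at this
        omega)
      (by
        rintro rfl
        have := hk 1
        simp only [gl] at this
        simp at this
        omega)
      (by
        rintro rfl
        have := hk 2
        simp only [gl] at this
        simp at this
        omega)
    rw [← hEE] at g1
    refine g1.trans ?_
    have g2 := hupp (n - 2 * (k t / 8)) n hn (by omega)
    have g3 := (hE n hn (gl n T t) (hgA2 t)).2.1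
    rw [← hk] at g3
    have g4 : μ ^ (n - 2 * (k t / 8)) ≤ c := by
      rw [hcc]
      refine le_trans ?_ (hlow n)
      exact pow_le_pow_right₀ (by linarith) (by omega)
    have hμ0 : 0 ≤ μ ^ (n - 2 * (k t / 8)) := by positivity
    have hc0 : 0 ≤ c := by rw [hcc]; exact hcn.le
    calc (2 / 7 : ℝ) ^ (k t / 8) * ((SW (n - 2 * (k t / 8))).card : ℝ)
        ≤ (2 / 7 : ℝ) ^ (k t / 8) * (4 * (c * Real.exp (K * Real.log n ^ 2))) := by
          refine mul_le_mul_of_nonneg_left (g2.trans ?_) (by positivity)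
          gcongr
      _ = ((2 / 7 : ℝ) ^ (k t / 8) * Real.exp (K * Real.log n ^ 2) * 512) * c / 128 := by ring
      _ ≤ _ := by gcongr
  -- the sets Fw
  have hFb : ∀ t, ((Fw t).card : ℝ) ≤ 1 / (6 * (n : ℝ) ^ 10) * c := by
    intro t
    have g1 := hF n T hn h1 h2 hgA1 t
    rw [← hFw, ← hcc] at g1
    refine g1.trans ?_
    have g3 := (hE n hn (gl n T t) (hgA2 t)).1
    have hc0 : 0 ≤ c := by rw [hcc]; exact hcn.le
    gcongr
  -- the good sets
  have hYb : ∀ i, ((a : ℝ) + 1) * ((b : ℝ) + 1) * ((Y i).card : ℝ) ≤ R := by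
    intro i
    rw [hY, hR]
    exact mi hc hb (hΛ i) h1.le h2.le hs1 hs2 hs3 a b Z
  -- numbers
  have hk8 : ∀ t, (gl n T t : ℝ) ≤ 64000000 * ((k t / 8 : ℕ) : ℝ) := by
    intro t
    have g3 := (hE n hn (gl n T t) (hgA2 t)).2.2
    have g4 := hk t
    have : gl n T t ≤ 64000000 * (k t / 8) := by omega
    exact_mod_cast this
  have hsq : ∀ (x : ℕ) (t : Fin 3), C * (x : ℝ) ^ 2 ≤ gl n T t → 9 * x ^ 2 ≤ k t / 8 := by
    intro x t h
    rw [hC] at h
    have h3 := hk8 t
    have h4 : 9 * (x : ℝ) ^ 2 ≤ ((k t / 8 : ℕ) : ℝ) := by nlinarith [sq_nonneg (x : ℝ)]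
    exact_mod_cast h4
  have hx2 : ∀ x : ℕ, x ≤ x ^ 2 := fun x => Nat.le_self_pow (by norm_num) x
  -- main counting
  have hmain : ∀ w ∈ X, (∀ t, w ∉ Fw t) →
      (Fintype.card ι : ℝ) ≤ 128 * ∑ i : ι, ((if w ∈ Y i then (1 : ℝ) else 0) +
        ∑ t : Fin 3, if w ∈ EE' i t then (1 : ℝ) else 0) := by
    intro w hw hwF
    rw [hX, mem_filter] at hw
    obtain ⟨hw, hz⟩ := hw
    obtain ⟨P, hP1, hP2, hP3, hP4, hP5⟩ := hplq n w T hw h1 h2
    have hPc : ∀ t, gl n T t ≤ 4000 * (P t).card := by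
      intro t
      have g1 := hwF t
      rw [hFw, mem_filter] at g1
      push Not at g1
      have g2 := g1 hw
      refine g2.trans (Nat.mul_le_mul_left _ ?_)
      unfold bwin
      fin_cases t
      · exact hP3
      · exact hP4
      · exact hP5
    have hPl : ∀ t, 1000 ≤ (P t).card := by
      intro t
      have g3 := (hE n hn (gl n T t) (hgA2 t)).2.2
      have := hPc t
      omega
    have hsel' := hsel P (fun t p hp => by
      have := hP1 t p hp
      push_cast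
      exact this) hPl
    have hle : ((univ.filter (fun i => ∀ s, (P s).card ≤ 1000 * (Λ i ∩ P s).card)).card : ℝ) ≤
        ∑ i : ι, ((if w ∈ Y i then (1 : ℝ) else 0) +
          ∑ t : Fin 3, if w ∈ EE' i t then (1 : ℝ) else 0) := by
      rw [Finset.card_filter]
      push_cast
      refine sum_le_sum (fun i _ => ?_)
      split_ifs with hi hwY hwY
      · have : (0 : ℝ) ≤ ∑ t : Fin 3, if w ∈ EE' i t then (1 : ℝ) else 0 :=
          sum_nonneg (fun t _ => by split_ifs <;> norm_num)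
        linarith
      · -- some EE'
        have hOO : ∀ t, k t ≤ (OO (Λ i) t T w).card := by
          intro t
          have g1 : (Λ i ∩ P t).card ≤ (OO (Λ i) t T w).card := by
            refine card_le_card (fun p hp => ?_)
            rw [mem_inter] at hp
            exact mem_filter.mpr ⟨hp.1, hP2 t p hp.2⟩
          have g2 := hi t
          have g3 := hPc t
          rw [hk]
          omega
        have hex : ∃ t, w ∈ EE' i t := by
          by_contra hcon
          push Not at hcon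
          apply hwY
          rw [hY, mem_filter]
          refine ⟨hw, hz, ?_⟩
          have hD' : ∀ t, (OO (Λ i) t T w).card + k t / 8 ≤ (DD (Λ i) t T w).card := by
            intro t
            have g1 := hcon t
            rw [hEE, mem_filter] at g1
            push Not at g1
            exact (g1 hw (hOO t)).le
          have q1 := hsq a s ha1
          have q2 := hsq a r ha2
          have q3 := hsq b s' hb1
          have q4 := hsq b r hb2
          have q5 := hx2 a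
          have o1 := hOO s
          have o2 := hOO s'
          have o3 := hOO r
          have d1 := hD' s
          have d2 := hD' s'
          have d3 := hD' r
          refine ⟨by omega, by omega, by omega, by omega, by omega, by omega⟩
        obtain ⟨t, ht⟩ := hex
        have : (1 : ℝ) ≤ ∑ t : Fin 3, if w ∈ EE' i t then (1 : ℝ) else 0 := by
          have h4 : (if w ∈ EE' i t then (1 : ℝ) else 0) ≤
              ∑ t : Fin 3, if w ∈ EE' i t then (1 : ℝ) else 0 :=
            Finset.single_le_sum (f := fun t : Fin 3 => if w ∈ EE' i t then (1 : ℝ) else 0)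
              (fun t _ => by split_ifs <;> norm_num) (mem_univ t)
          rw [if_pos ht] at h4
          exact h4
        linarith
      · have : (0 : ℝ) ≤ ∑ t : Fin 3, if w ∈ EE' i t then (1 : ℝ) else 0 :=
          sum_nonneg (fun t _ => by split_ifs <;> norm_num)
        linarith
      · have : (0 : ℝ) ≤ ∑ t : Fin 3, if w ∈ EE' i t then (1 : ℝ) else 0 :=
          sum_nonneg (fun t _ => by split_ifs <;> norm_num)
        linarith
    have h7 : (Fintype.card ι : ℝ) ≤
        128 * ((univ.filter (fun i => ∀ s, (P s).card ≤ 1000 * (Λ i ∩ P s).card)).card : ℝ) := by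
      exact_mod_cast hsel'
    linarith
  -- sum over the words
  obtain ⟨m, hm⟩ : ∃ m : ℝ, m = (Fintype.card ι : ℝ) := ⟨_, rfl⟩
  have hm0 : 0 < m := by
    rw [hm]
    exact_mod_cast Fintype.card_pos
  obtain ⟨X', hX'⟩ : ∃ X', X' = X.filter (fun w => ∀ t, w ∉ Fw t) := ⟨_, rfl⟩
  have hXX' : (X.card : ℝ) ≤ X'.card + ∑ t : Fin 3, ((Fw t).card : ℝ) := by
    have : X ⊆ X' ∪ univ.biUnion Fw := by
      intro w hw
      rw [mem_union]
      by_cases h : ∀ t, w ∉ Fw t
      · left; rw [hX', mem_filter]; exact ⟨hw, h⟩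
      · right
        push Not at h
        obtain ⟨t, ht⟩ := h
        exact mem_biUnion.mpr ⟨t, mem_univ _, ht⟩
    have h3 := (card_le_card this).trans (card_union_le _ _)
    have h4 : (univ.biUnion Fw).card ≤ ∑ t : Fin 3, (Fw t).card := card_biUnion_le
    have h5 : X.card ≤ X'.card + ∑ t : Fin 3, (Fw t).card := h3.trans (by omega)
    exact_mod_cast h5
  have hcount : m * (X'.card : ℝ) ≤ 128 * ∑ i : ι, (((Y i).card : ℝ) +
      ∑ t : Fin 3, ((EE' i t).card : ℝ)) := by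
    have hYX : ∀ S : Finset (List Dir), ∑ w ∈ X', (if w ∈ S then (1 : ℝ) else 0) ≤ (S.card : ℝ) := by
      intro S
      rw [← Finset.sum_filter, Finset.sum_const, nsmul_eq_mul, mul_one]
      have : (X'.filter (fun w => w ∈ S)).card ≤ S.card :=
        card_le_card (fun w hw => (mem_filter.mp hw).2)
      exact_mod_cast this
    calc m * (X'.card : ℝ) = ∑ w ∈ X', m := by rw [Finset.sum_const, nsmul_eq_mul]; ring
      _ ≤ ∑ w ∈ X', 128 * ∑ i : ι, ((if w ∈ Y i then (1 : ℝ) else 0) +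
          ∑ t : Fin 3, if w ∈ EE' i t then (1 : ℝ) else 0) := by
          refine sum_le_sum (fun w hw => ?_)
          rw [hX', mem_filter] at hw
          rw [hm]
          exact hmain w hw.1 hw.2
      _ = 128 * ∑ i : ι, ((∑ w ∈ X', if w ∈ Y i then (1 : ℝ) else 0) +
          ∑ t : Fin 3, ∑ w ∈ X', if w ∈ EE' i t then (1 : ℝ) else 0) := by
          rw [← Finset.mul_sum, Finset.sum_comm]
          congr 1
          refine Finset.sum_congr rfl (fun i _ => ?_)
          rw [Finset.sum_add_distrib]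
          congr 1
          rw [Finset.sum_comm]
      _ ≤ _ := by
          refine mul_le_mul_of_nonneg_left (sum_le_sum (fun i _ => ?_)) (by norm_num)
          exact add_le_add (hYX _) (sum_le_sum (fun t _ => hYX _))
  have hab : (0 : ℝ) < ((a : ℝ) + 1) * ((b : ℝ) + 1) := by positivity
  obtain ⟨q, hq⟩ : ∃ q : ℝ, q = 1 / (6 * (n : ℝ) ^ 10) := ⟨_, rfl⟩
  rw [← hq] at hEb hFb
  have hc0 : 0 ≤ c := by rw [hcc]; exact hcn.le
  have hX'b : (X'.card : ℝ) ≤ 128 * (R / (((a : ℝ) + 1) * ((b : ℝ) + 1))) + 3 * (q * c) := by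
    have h3 : 128 * ∑ i : ι, (((Y i).card : ℝ) + ∑ t : Fin 3, ((EE' i t).card : ℝ)) ≤
        128 * (m * (R / (((a : ℝ) + 1) * ((b : ℝ) + 1)) + 3 * (q * c / 128))) := by
      refine mul_le_mul_of_nonneg_left ?_ (by norm_num)
      calc ∑ i : ι, (((Y i).card : ℝ) + ∑ t : Fin 3, ((EE' i t).card : ℝ))
          ≤ ∑ i : ι, (R / (((a : ℝ) + 1) * ((b : ℝ) + 1)) + 3 * (q * c / 128)) := by
            refine sum_le_sum (fun i _ => add_le_add ?_ ?_)
            · rw [le_div_iff₀ hab]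
              have := hYb i
              linarith
            · calc ∑ t : Fin 3, ((EE' i t).card : ℝ) ≤ ∑ t : Fin 3, q * c / 128 :=
                    sum_le_sum (fun t _ => hEb i t)
                _ = 3 * (q * c / 128) := by rw [Fin.sum_univ_three]; ring
        _ = m * (R / (((a : ℝ) + 1) * ((b : ℝ) + 1)) + 3 * (q * c / 128)) := by
            rw [Finset.sum_const, nsmul_eq_mul, hm]
            rfl
    have h4 : m * (X'.card : ℝ) ≤
        m * (128 * (R / (((a : ℝ) + 1) * ((b : ℝ) + 1))) + 3 * (q * c)) := by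
      refine (hcount.trans h3).trans (le_of_eq ?_)
      ring
    exact le_of_mul_le_mul_left h4 hm0
  have hR0 : 0 ≤ R := by
    rw [hR]
    exact Finset.sum_nonneg (fun _ _ => Finset.sum_nonneg (fun _ _ => Nat.cast_nonneg _))
  have hFsum : ∑ t : Fin 3, ((Fw t).card : ℝ) ≤ 3 * (q * c) := by
    calc ∑ t : Fin 3, ((Fw t).card : ℝ) ≤ ∑ t : Fin 3, q * c := sum_le_sum (fun t _ => hFb t)
      _ = 3 * (q * c) := by rw [Fin.sum_univ_three]; ring
  have hqc : 6 * (q * c) = c / (n : ℝ) ^ 10 := by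
    rw [hq]
    exact q_aux c (by linarith)
  have hfin : (X.card : ℝ) ≤ 128 * (R / (((a : ℝ) + 1) * ((b : ℝ) + 1))) + c / (n : ℝ) ^ 10 := by
    linarith
  have hfin2 : 128 * (R / (((a : ℝ) + 1) * ((b : ℝ) + 1))) ≤
      C / (((a : ℝ) + 1) * ((b : ℝ) + 1)) * R := by
    have e : C / (((a : ℝ) + 1) * ((b : ℝ) + 1)) * R =
        C * (R / (((a : ℝ) + 1) * ((b : ℝ) + 1))) := by ring
    rw [e]
    have h0 : 0 ≤ R / (((a : ℝ) + 1) * ((b : ℝ) + 1)) := by positivity
    exact mul_le_mul_of_nonneg_right (by rw [hC]; norm_num) h0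
  rw [← hX, ← hcc]
  have : ∑ i ∈ range (2 * a + 1), ∑ i' ∈ range (2 * b + 1),
      (((SW n).filter (fun w =>
        (Lip.PP w ((T.1 : ℤ) + 2 * dl s s' r ((i : ℤ) - a) ((i' : ℤ) - b) 0).toNat,
         Lip.PP w ((T.2 : ℤ) + 2 * dl s s' r ((i : ℤ) - a) ((i' : ℤ) - b) 0 +
           2 * dl s s' r ((i : ℤ) - a) ((i' : ℤ) - b) 1).toNat) ∈ Z)).card : ℝ) = R := by
    rw [hR]
    rfl
  rw [this]
  linarith

end

end Pool.Agent.N929.EX
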