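import Pool.Agent.H976R2.KLip
import Pool.Agent.H976R2.KDouble

/-!
# Exact exchangeability of the bumps of a self-avoiding walk in sparse families of unit squares

Definitions and statements (as `Prop`s) of the tasks.

Words `w : List Dir` are walks from the origin; `Lip.PP w j` is the position after `j` steps,
`SW n` the finite set of the self-avoiding words of length `n`, `ins w i e` inserts a bump.

`L` is a finite family of unit squares (given by their lower left corners) no two of which share a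
corner.  A square `p` of `L` is a *slot* of `w` if `w` is at corners of `p` at two consecutive
times `k, k+1` and at no other time (free slot: the bump can be inserted), or at four consecutive
times `k, ..., k+3` and at no other time (occupied slot: the bump can be removed).  Occupying or
freeing one slot does not change the other slots.
-/

set_option autoImplicit false
set_option linter.unusedVariables false

namespace Pool.Agent.N929.EX

open Pool.Agent.H976R2 Pool.Agent.H976R2.Dir Finset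
open scoped Classical

noncomputable section

/-- `v` is a corner of the unit square with lower left corner `p` -/
def Cn (p v : ℤ × ℤ) : Prop := (v.1 = p.1 ∨ v.1 = p.1 + 1) ∧ (v.2 = p.2 ∨ v.2 = p.2 + 1)

/-- the walk `w` is at corners of the unit square `p` exactly at the times `k, ..., k + l` -/
def At (w : List Dir) (p : ℤ × ℤ) (k l : ℕ) : Prop :=
  k + l ≤ w.length ∧ ∀ j, j ≤ w.length → (Cn p (Lip.PP w j) ↔ k ≤ j ∧ j ≤ k + l)

/-- the times `k, ..., k + l` are in the part number `s`; the three parts are separated by the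
times `T.1` and `T.2` -/
def In (s : Fin 3) (T : ℕ × ℕ) (k l : ℕ) : Prop :=
  (s = 0 ∧ k + l < T.1) ∨ (s = 1 ∧ T.1 < k ∧ k + l < T.2) ∨ (s = 2 ∧ T.2 < k)

/-- no two squares of the family have a common corner -/
def CF (L : Finset (ℤ × ℤ)) : Prop :=
  ∀ p ∈ L, ∀ q ∈ L, p ≠ q → ∀ v, ¬ (Cn p v ∧ Cn q v)

/-- the slots in the part number `s` -/
def DD (L : Finset (ℤ × ℤ)) (s : Fin 3) (T : ℕ × ℕ) (w : List Dir) : Finset (ℤ × ℤ) :=
  L.filter (fun q => ∃ k, (At w q k 1 ∧ In s T k 1) ∨ (At w q k 3 ∧ In s T k 3))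

/-- the occupied slots in the part number `s` -/
def OO (L : Finset (ℤ × ℤ)) (s : Fin 3) (T : ℕ × ℕ) (w : List Dir) : Finset (ℤ × ℤ) :=
  L.filter (fun q => ∃ k, At w q k 3 ∧ In s T k 3)

/-- the two times after the insertion of a bump in the part number `s` -/
def up (s : Fin 3) (T : ℕ × ℕ) : ℕ × ℕ :=
  (T.1 + (if s = 0 then 2 else 0), T.2 + (if s = 2 then 0 else 2))

/-- `w'` is obtained from `w` by occupying the slot `p` of the part number `s` -/
structure Step (L : Finset (ℤ × ℤ)) (s : Fin 3) (T : ℕ × ℕ) (w : List Dir) (p : ℤ × ℤ)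
    (w' : List Dir) : Prop where
  m1 : Lip.PP w' (up s T).1 = Lip.PP w T.1
  m2 : Lip.PP w' (up s T).2 = Lip.PP w T.2
  dd : ∀ s', DD L s' (up s T) w' = DD L s' T w
  oo : ∀ s', s' ≠ s → OO L s' (up s T) w' = OO L s' T w
  mem : p ∈ DD L s T w
  nm : p ∉ OO L s T w
  os : OO L s (up s T) w' = insert p (OO L s T w)

/-- TOG: occupying and freeing one slot -/
def S_TOG : Prop :=
  ∀ L : Finset (ℤ × ℤ), CF L → ∃ f g : List Dir → (ℤ × ℤ) → List Dir,
    (∀ (s : Fin 3) (T : ℕ × ℕ) (n : ℕ) (w : List Dir) (p : ℤ × ℤ), T.1 ≤ T.2 → T.2 ≤ n →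
      w ∈ SW n → p ∈ DD L s T w → p ∉ OO L s T w →
      f w p ∈ SW (n + 2) ∧ Step L s T w p (f w p) ∧ g (f w p) p = w) ∧
    (∀ (s : Fin 3) (T : ℕ × ℕ) (n : ℕ) (w' : List Dir) (p : ℤ × ℤ), T.1 ≤ T.2 → T.2 ≤ n →
      w' ∈ SW (n + 2) → p ∈ OO L s (up s T) w' →
      g w' p ∈ SW n ∧ Step L s T (g w' p) p w' ∧ f (g w' p) p = w')

/-- the two times in a class: `c s` is the length of the part number `s` if all slots are free,
`j s` the number of its occupied slots -/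
def TT (c j : Fin 3 → ℕ) : ℕ × ℕ := (c 0 + 2 * j 0, c 0 + 2 * j 0 + (c 1 + 2 * j 1))

/-- the number of steps in a class -/
def len (c j : Fin 3 → ℕ) : ℕ := c 0 + 2 * j 0 + (c 1 + 2 * j 1) + (c 2 + 2 * j 2)

/-- the walks at `y`, `z` at the two times, with the given slots and the given numbers `j s` of
occupied slots -/
def HH (L : Finset (ℤ × ℤ)) (y z : ℤ × ℤ) (D : Fin 3 → Finset (ℤ × ℤ)) (c j : Fin 3 → ℕ) :
    Finset (List Dir) :=
  (SW (len c j)).filter (fun w => Lip.PP w (TT c j).1 = y ∧ Lip.PP w (TT c j).2 = z ∧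
    (∀ s, DD L s (TT c j) w = D s) ∧ ∀ s, (OO L s (TT c j) w).card = j s)

/-- CLS: the numbers of walks in the classes are products of binomial coefficients -/
def S_CLS : Prop :=
  ∀ L : Finset (ℤ × ℤ), CF L → ∀ (y z : ℤ × ℤ) (D : Fin 3 → Finset (ℤ × ℤ)) (c j : Fin 3 → ℕ),
    (HH L y z D c j).card =
      (∏ s : Fin 3, ((D s).card).choose (j s)) * (HH L y z D c (fun _ => 0)).card

/-- binomial coefficient with an integer argument -/
def ch (S : ℕ) (x : ℤ) : ℝ := (S.choose x.toNat : ℝ)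

/-- shift of the numbers of occupied slots: `a` from the reservoir `r` to the part `s`, `b` from
the reservoir `r` to the part `s'` -/
def dl (s s' r : Fin 3) (a b : ℤ) (t : Fin 3) : ℤ :=
  (if t = s then a else 0) + (if t = s' then b else 0) - (if t = r then a + b else 0)

/-- BIN: products of binomial coefficients are spread out -/
def S_BIN : Prop :=
  ∀ s s' r : Fin 3, s ≠ s' → s ≠ r → s' ≠ r → ∀ (S j : Fin 3 → ℕ) (A B : ℕ),
    4 * A ^ 2 ≤ j s → j s + 4 * A ^ 2 ≤ S s → 4 * B ^ 2 ≤ j s' → j s' + 4 * B ^ 2 ≤ S s' →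
    4 * A ^ 2 + 4 * B ^ 2 + A ≤ j r → j r + (4 * A ^ 2 + 4 * B ^ 2 + A) ≤ S r →
    ((A : ℝ) + 1) * ((B : ℝ) + 1) * ∏ t : Fin 3, ch (S t) (j t) ≤
      ∑ i ∈ range (2 * A + 1), ∑ i' ∈ range (2 * B + 1),
        ∏ t : Fin 3, ch (S t) ((j t : ℤ) + dl s s' r ((i : ℤ) - A) ((i' : ℤ) - B) t)

/-- SEL: a finite set of families without common corners such that every triple of large sets of
squares is hit well by a positive proportion of them -/
def S_SEL : Prop :=
  ∀ N : ℕ, ∃ (ι : Type) (_ : Fintype ι) (_ : Nonempty ι) (Λ : ι → Finset (ℤ × ℤ)),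
    (∀ i, CF (Λ i)) ∧
    ∀ P : Fin 3 → Finset (ℤ × ℤ), (∀ s, ∀ p ∈ P s, |p.1| ≤ N ∧ |p.2| ≤ N) →
      (∀ s, 1000 ≤ (P s).card) →
      Fintype.card ι ≤
        128 * (univ.filter (fun i => ∀ s, (P s).card ≤ 1000 * (Λ i ∩ P s).card)).card

/-- OFF: few walks have many occupied and only few free slots in one part -/
def S_OFF : Prop :=
  ∀ L : Finset (ℤ × ℤ), CF L → ∀ (s : Fin 3) (T : ℕ × ℕ) (n a b K : ℕ), T.1 ≤ T.2 → T.2 ≤ n →
    b ≤ a → 8 * a ≤ K → (s = 0 → 2 * a ≤ T.1) → (s = 1 → T.1 + 2 * a ≤ T.2) →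
    (s = 2 → T.2 + 2 * a ≤ n) →
    (((SW n).filter (fun w => K ≤ (OO L s T w).card ∧
      (DD L s T w).card ≤ (OO L s T w).card + b)).card : ℝ) ≤
        (2 / 7 : ℝ) ^ a * ((SW (n - 2 * a)).card : ℝ)

/-- number of bumps formed by the letters number `a, ..., |w| - r - 1` -/
def BW (a r : ℕ) (w : List Dir) : ℕ :=
  ((bumps w).filter (fun i => a ≤ i ∧ i + 2 + r < w.length)).card

/-- PLQ: the bumps of a walk as unit squares -/
def S_PLQ : Prop :=
  ∀ (n : ℕ) (w : List Dir) (T : ℕ × ℕ), w ∈ SW n → T.1 < T.2 → T.2 < n →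
    ∃ P : Fin 3 → Finset (ℤ × ℤ), (∀ s, ∀ p ∈ P s, |p.1| ≤ n + 1 ∧ |p.2| ≤ n + 1) ∧
      (∀ s, ∀ p ∈ P s, ∃ k, At w p k 3 ∧ In s T k 3) ∧
      BW 0 (n - T.1 + 1) w ≤ (P 0).card ∧
      BW (T.1 + 1) (n - T.2 + 1) w ≤ (P 1).card ∧
      BW (T.2 + 1) 0 w ≤ (P 2).card

/-- UP: known bounds for the numbers of self-avoiding walks -/
def S_UP : Prop :=
  ∃ μ K : ℝ, 2.43 ≤ μ ∧ 0 ≤ K ∧ (∀ n : ℕ, μ ^ n ≤ ((SW n).card : ℝ)) ∧
    ∀ m n : ℕ, 2 ≤ n → m ≤ n → ((SW m).card : ℝ) ≤ 4 * (μ ^ m * Real.exp (K * Real.log n ^ 2))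

/-- FEW: exponentially few walks have few bumps in a window -/
def S_FEW : Prop :=
  ∃ A D : ℝ, 0 < A ∧ 0 < D ∧ ∀ a r n : ℕ, 2 ≤ n → A * Real.log n ^ 2 ≤ (n : ℝ) - a - r →
    (((SW n).filter (fun w => (BW a r w : ℝ) < ((n : ℝ) - a - r) / 2000)).card : ℝ) ≤
      D * Real.exp (-(((n : ℝ) - a - r) / 2500)) * ((SW n).card : ℝ)

/-- CON: mean number of contacts between the past and the future of a time -/
def S_CON : Prop :=
  ∃ K : ℝ, 0 < K ∧ ∀ n t : ℕ, 2 ≤ n →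
    ∑ w ∈ SW n, (((range (n + 1) ×ˢ range (n + 1)).filter (fun q : ℕ × ℕ => q.1 < t ∧ t < q.2 ∧
      |(Lip.PP w q.2).1 - (Lip.PP w q.1).1| + |(Lip.PP w q.2).2 - (Lip.PP w q.1).2| = 1)).card : ℝ)
        ≤ K * Real.log n ^ 2 * ((SW n).card : ℝ)

/-- the lengths of the three parts -/
def gl (n : ℕ) (T : ℕ × ℕ) (s : Fin 3) : ℕ := if s = 0 then T.1 else if s = 1 then T.2 - T.1 else n - T.2

/-- MAIN: the smoothing inequality -/
def S_MAIN : Prop :=
  ∃ A C : ℝ, 0 < A ∧ 0 < C ∧ ∀ (n : ℕ) (T : ℕ × ℕ), 2 ≤ n → T.1 < T.2 → T.2 < n →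
    (∀ s, A * Real.log n ^ 2 ≤ gl n T s) →
    ∀ s s' r : Fin 3, s ≠ s' → s ≠ r → s' ≠ r → ∀ a b : ℕ,
      C * (a : ℝ) ^ 2 ≤ gl n T s → C * (a : ℝ) ^ 2 ≤ gl n T r →
      C * (b : ℝ) ^ 2 ≤ gl n T s' → C * (b : ℝ) ^ 2 ≤ gl n T r →
      ∀ Z : Set ((ℤ × ℤ) × (ℤ × ℤ)),
        (((SW n).filter (fun w => (Lip.PP w T.1, Lip.PP w T.2) ∈ Z)).card : ℝ) ≤
          C / (((a : ℝ) + 1) * ((b : ℝ) + 1)) *
            ∑ i ∈ range (2 * a + 1), ∑ i' ∈ range (2 * b + 1),
              (((SW n).filter (fun w =>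
                (Lip.PP w ((T.1 : ℤ) + 2 * dl s s' r ((i : ℤ) - a) ((i' : ℤ) - b) 0).toNat,
                 Lip.PP w ((T.2 : ℤ) + 2 * dl s s' r ((i : ℤ) - a) ((i' : ℤ) - b) 0 +
                   2 * dl s s' r ((i : ℤ) - a) ((i' : ℤ) - b) 1).toNat) ∈ Z)).card : ℝ) +
          ((SW n).card : ℝ) / (n : ℝ) ^ 10

end

end Pool.Agent.N929.EX
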